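import Mathlib

/-!
# LAP: definitions

Paper proof: `/team-store/PAPER_LAC23.md`. Everything is a `Finset` over `Fintype`s, decidability is
classical (`open scoped Classical`).
-/

set_option autoImplicit false

namespace Pool.Agent.LAP

open scoped Classical

variable {α β V W U S Λ γ : Type}

/-! ### Arc sets -/

/-- Out-neighbours. -/
noncomputable def out [Fintype β] (R : Finset (α × β)) (x : α) : Finset β :=
  Finset.univ.filter fun y => (x, y) ∈ R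

/-- In-neighbours. -/
noncomputable def inn [Fintype α] (R : Finset (α × β)) (y : β) : Finset α :=
  Finset.univ.filter fun x => (x, y) ∈ R

/-- The tails. -/
noncomputable def dom (R : Finset (α × β)) : Finset α := R.image Prod.fst

/-- The heads. -/
noncomputable def ran (R : Finset (α × β)) : Finset β := R.image Prod.snd

/-- The transposed arc set. -/
noncomputable def tr (R : Finset (α × β)) : Finset (β × α) := R.image Prod.swap

/-- Partial injection. -/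
def PI (F : Finset (α × β)) : Prop :=
  (∀ x y y', (x, y) ∈ F → (x, y') ∈ F → y = y') ∧ (∀ x x' y, (x, y) ∈ F → (x', y) ∈ F → x = x')

/-- All degrees are `k`. -/
def Reg [Fintype α] [Fintype β] (E : Finset (α × β)) (k : ℕ) : Prop :=
  (∀ x, (out E x).card = k) ∧ ∀ y, (inn E y).card = k

/-- No closed walk. -/
def Acy (F : Finset (V × V)) : Prop := ∀ v, ¬ Relation.TransGen (fun a b => (a, b) ∈ F) v v

/-! ### Crossing arcs and discrepancy -/

/-- The arcs of `R` with tail in `X \ A` and head in `Y ∩ B`. -/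
noncomputable def ain (R : Finset (α × β)) (X : Finset α) (Y : Finset β) (A : Finset α)
    (B : Finset β) : Finset (α × β) :=
  R.filter fun a => (a.1 ∈ X ∧ a.1 ∉ A) ∧ a.2 ∈ Y ∧ a.2 ∈ B

/-- The arcs of `R` with tail in `X ∩ A` and head in `Y \ B`. -/
noncomputable def aou (R : Finset (α × β)) (X : Finset α) (Y : Finset β) (A : Finset α)
    (B : Finset β) : Finset (α × β) :=
  R.filter fun a => (a.1 ∈ X ∧ a.1 ∈ A) ∧ a.2 ∈ Y ∧ a.2 ∉ B

/-- The crossing arcs. -/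
noncomputable def crs (R : Finset (α × β)) (X : Finset α) (Y : Finset β) (A : Finset α)
    (B : Finset β) : Finset (α × β) := ain R X Y A B ∪ aou R X Y A B

/-- The discrepancy. -/
noncomputable def dsc (R : Finset (α × β)) (X : Finset α) (Y : Finset β) (D : ℝ) (A : Finset α)
    (B : Finset β) : ℝ :=
  ((ain R X Y A B).card : ℝ) - (aou R X Y A B).card - D * (((Y ∩ B).card : ℝ) - (X ∩ A).card)

/-! ### Sites -/

/-- Adjacency of sites. -/
def sadj (E : Finset (α × β)) : α ⊕ β → α ⊕ β → Prop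
  | Sum.inl x, Sum.inr y => (x, y) ∈ E
  | Sum.inr y, Sum.inl x => (x, y) ∈ E
  | _, _ => False

/-- Equal or related (distance at most 1). -/
def nr1 (r : W → W → Prop) (u v : W) : Prop := u = v ∨ r u v

/-- Distance at most 3. -/
def nr3 (r : W → W → Prop) (u v : W) : Prop := ∃ a b, nr1 r u a ∧ nr1 r a b ∧ nr1 r b v

/-- `Z` is nonempty and connected by steps of the relation `r`. -/
def Con (r : W → W → Prop) (Z : Finset W) : Prop :=
  Z.Nonempty ∧ ∀ u ∈ Z, ∀ v ∈ Z, Relation.ReflTransGen (fun a b => b ∈ Z ∧ r a b) u v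

/-- `Z` is linked. -/
def Lnk (r : W → W → Prop) (Z : Finset W) : Prop := Con (nr3 r) Z

/-- The left part of a set of sites. -/
noncomputable def lp [Fintype α] (Q : Finset (α ⊕ β)) : Finset α :=
  Finset.univ.filter fun x => Sum.inl x ∈ Q

/-- The right part of a set of sites. -/
noncomputable def rp [Fintype β] (Q : Finset (α ⊕ β)) : Finset β :=
  Finset.univ.filter fun y => Sum.inr y ∈ Q

/-- The set of sites with parts `A`, `B`. -/
noncomputable def uni (A : Finset α) (B : Finset β) : Finset (α ⊕ β) :=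
  A.image Sum.inl ∪ B.image Sum.inr

/-- The tails with at least `t` out-neighbours in `Q`. -/
noncomputable def clO [Fintype α] [Fintype β] (E : Finset (α × β)) (t : ℕ) (Q : Finset β) :
    Finset α := Finset.univ.filter fun x => t ≤ (out E x ∩ Q).card

/-- The heads with at least `t` in-neighbours in `Q`. -/
noncomputable def clI [Fintype α] [Fintype β] (E : Finset (α × β)) (t : ℕ) (Q : Finset α) :
    Finset β := Finset.univ.filter fun y => t ≤ (inn E y ∩ Q).card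

/-- The left part of the closure. -/
noncomputable def clA [Fintype α] [Fintype β] (E : Finset (α × β)) (t : ℕ)
    (Q : Finset (α ⊕ β)) : Finset α := clO E t (rp Q)

/-- The right part of the closure. -/
noncomputable def clB [Fintype α] [Fintype β] (E : Finset (α × β)) (t : ℕ)
    (Q : Finset (α ⊕ β)) : Finset β := clI E t (lp Q)

/-! ### Finite product spaces -/

/-- The probability of `A` in the finite product space `U → S` (uniform measure). -/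
noncomputable def pr [Fintype U] [Fintype S] (A : Set (U → S)) : ℝ :=
  ((Finset.univ.filter fun ω => ω ∈ A).card : ℝ) / (Fintype.card (U → S) : ℝ)

/-- The mean of `f`. -/
noncomputable def ex [Fintype U] [Fintype S] (f : (U → S) → ℝ) : ℝ :=
  (∑ ω, f ω) / (Fintype.card (U → S) : ℝ)

/-- `f` depends only on the coordinates in `B`. -/
def Dep (B : Finset U) (f : (U → S) → γ) : Prop := ∀ ω ω', (∀ u ∈ B, ω u = ω' u) → f ω = f ω'

/-- The event `A` is empty, or rare and local around the linked set `Z` (`loc u` = the sites of the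
coordinate `u`). -/
def Ev [Fintype U] [Fintype S] (r : W → W → Prop) (L : ℕ) (loc : U → Finset W) (A : Set (U → S))
    (Z : Finset W) : Prop :=
  A = ∅ ∨ (Lnk r Z ∧
    (∃ B : Finset U, (∀ ω ω' : U → S, (∀ u ∈ B, ω u = ω' u) → ω ∈ A → ω' ∈ A) ∧
      ∀ u ∈ B, ∃ w ∈ loc u, ∃ z ∈ Z, nr3 r w z) ∧
    pr A ≤ Real.exp (-((L : ℝ) ^ 2 * Z.card)))

/-! ### Parameters -/

/-- `k` = degree of `E`, `q` classes, `D` = number of available arcs between tokens, `P` slots,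
sinks with probability `1 / P'`. -/
structure Prm (k L q : ℕ) (D δ η r T Rr ζ : ℝ) (P P' : ℕ) : Prop where
  L4 : 10 ^ 4 ≤ L
  k2 : k ≤ 2 ^ L
  q1 : q ≤ k
  D1 : (L : ℝ) ^ 19 ≤ D
  D2 : D ≤ k
  d0 : 0 ≤ δ
  d1 : δ * (L : ℝ) ^ 3 ≤ 8
  e0 : 0 ≤ η
  e1 : η * (L : ℝ) ^ 3 ≤ 30
  r0 : 0 ≤ r
  r1 : r ≤ (L : ℝ) ^ 15
  z1 : (1 + 5 / (L : ℝ) ^ 2) * (r + 252 * (L : ℝ) ^ 13 + 5) ≤ ζ
  z2 : ζ ≤ (L : ℝ) ^ 15
  P1 : P * (L : ℝ) ^ 5 ≤ D
  P2 : D ≤ 2 * P * (L : ℝ) ^ 5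
  s1 : P' * ζ ≤ D
  s2 : D ≤ (1 + 2 / (L : ℝ) ^ 4) * (P' * ζ)
  s3 : (L : ℝ) ^ 4 ≤ 2 * P'
  R0 : 0 ≤ Rr
  R1 : 4 * (L : ℝ) ^ 4 * Rr ≤ P
  T0 : 0 ≤ T
  T1 : T ≤ P'

/-- The parameters of the next level (`D / 2`). -/
structure Nxt (L : ℕ) (D δ η r T Rr : ℝ) (P' : ℕ) (δ' η' r' T' R' : ℝ) : Prop where
  d : δ + 8 / (L : ℝ) ^ 4 ≤ δ'
  e : (η + 13 / (L : ℝ) ^ 4) * (1 + 14 / (L : ℝ) ^ 4) ≤ η'
  r : 1 / 2 * (1 + 6 / (L : ℝ) ^ 4) * (r + (1 + 1 / (L : ℝ) ^ 4) * (D / P')) ≤ r'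
  t : (1 + 1 / (L : ℝ)) * (T / 2) + (L : ℝ) ^ 3 ≤ T'
  R : (1 + 1 / (L : ℝ)) * (Rr / 4) + 2 * (L : ℝ) ^ 3 ≤ R'

/-! ### One class at one level -/

/-- The degree conditions (S1) of one class. -/
structure Cl [Fintype α] [Fintype β] (E R : Finset (α × β)) (X : Finset α) (Y : Finset β)
    (D δ : ℝ) : Prop where
  sub : R ⊆ E
  ol : ∀ x, (1 - δ) * D ≤ ((out R x ∩ Y).card : ℝ)
  ou : ∀ x, ((out E x ∩ Y).card : ℝ) ≤ (1 + δ) * D
  il : ∀ y, (1 - δ) * D ≤ ((inn R y ∩ X).card : ℝ)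
  iu : ∀ y, ((inn E y ∩ X).card : ℝ) ≤ (1 + δ) * D

/-- The number of crossing arcs of the closure of `Q`. -/
noncomputable def cq [Fintype α] [Fintype β] (E R : Finset (α × β)) (X : Finset α) (Y : Finset β)
    (L : ℕ) (Q : Finset (α ⊕ β)) : ℝ :=
  ((crs R X Y (clA E (L ^ 2) Q) (clB E (L ^ 2) Q)).card : ℝ)

/-- The discrepancy condition (H) for `Q`. -/
def HQ [Fintype α] [Fintype β] (E R : Finset (α × β)) (X : Finset α) (Y : Finset β) (L : ℕ)
    (D η r : ℝ) (Q : Finset (α ⊕ β)) : Prop :=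
  dsc R X Y D (clA E (L ^ 2) Q) (clB E (L ^ 2) Q) ≤ η * cq E R X Y L Q +
      r * (Y ∩ clB E (L ^ 2) Q).card + 14 * (L : ℝ) ^ 11 * Q.card * D ∧
    -dsc R X Y D (clA E (L ^ 2) Q) (clB E (L ^ 2) Q) ≤ η * cq E R X Y L Q +
      r * (X ∩ clA E (L ^ 2) Q).card + 14 * (L : ℝ) ^ 11 * Q.card * D

/-! ### The state -/

/-- The state of the bipartite system: available arcs `R`, tokens `X c`, `Y c`. -/
structure St [Fintype α] [Fintype β] (E R : Finset (α × β)) (L q : ℕ) (D δ η r T Rr : ℝ)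
    (X : Fin q → Finset α) (Y : Fin q → Finset β) : Prop where
  cl : ∀ c, Cl E R (X c) (Y c) D δ
  tx : ∀ x, (((Finset.univ.filter fun c => x ∈ X c).card : ℕ) : ℝ) ≤ T
  ty : ∀ y, (((Finset.univ.filter fun c => y ∈ Y c).card : ℕ) : ℝ) ≤ T
  rl : ∀ a ∈ R, (((Finset.univ.filter fun c => a.1 ∈ X c ∧ a.2 ∈ Y c).card : ℕ) : ℝ) ≤ Rr
  hh : ∀ c Q, Lnk (sadj E) Q → HQ E R (X c) (Y c) L D η r Q

/-- The sinks of one level (3.1). -/
structure Snk [Fintype α] [Fintype β] (E R : Finset (α × β)) (L q : ℕ) (D ζ : ℝ) (P' : ℕ)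
    (X : Fin q → Finset α) (Y : Fin q → Finset β) (X' : Fin q → Finset α) (Y' : Fin q → Finset β) :
    Prop where
  sx : ∀ c, X' c ⊆ X c
  sy : ∀ c, Y' c ⊆ Y c
  k1 : ∀ c Q, Lnk (sadj E) Q →
    ((((crs R (X c) (Y c) (clA E (L ^ 2) Q) (clB E (L ^ 2) Q)).filter
        fun a => a.1 ∈ X' c).card : ℕ) : ℝ) +
      (((crs R (X c) (Y c) (clA E (L ^ 2) Q) (clB E (L ^ 2) Q)).filter
        fun a => a.2 ∈ Y' c).card : ℕ) ≤
      8 / (L : ℝ) ^ 4 * cq E R (X c) (Y c) L Q + 2 * (L : ℝ) ^ 2 * Q.card * D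
  k2 : ∀ c Q, Lnk (sadj E) Q →
    ((Y c ∩ clB E (L ^ 2) Q ∩ Y' c).card : ℝ) ≤
      (1 + 1 / (L : ℝ) ^ 4) / P' * (Y c ∩ clB E (L ^ 2) Q).card + (L : ℝ) ^ 6 * Q.card ∧
    ((X c ∩ clA E (L ^ 2) Q ∩ X' c).card : ℝ) ≤
      (1 + 1 / (L : ℝ) ^ 4) / P' * (X c ∩ clA E (L ^ 2) Q).card + (L : ℝ) ^ 6 * Q.card
  k3 : ∀ c, (∀ x, (1 - 9 / (L : ℝ) ^ 3) * ζ ≤ ((out R x ∩ Y' c).card : ℝ)) ∧
    ∀ y, (1 - 9 / (L : ℝ) ^ 3) * ζ ≤ ((inn R y ∩ X' c).card : ℝ)
  k4 : ∀ c, (∀ x, ((out E x ∩ Y' c).card : ℝ) ≤ 5 / (L : ℝ) ^ 4 * D) ∧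
    ∀ y, ((inn E y ∩ X' c).card : ℝ) ≤ 5 / (L : ℝ) ^ 4 * D
  k5 : (∀ x, (((Finset.univ.filter fun c => x ∈ X' c).card : ℕ) : ℝ) ≤ 2 * (L : ℝ) ^ 2) ∧
    ∀ y, (((Finset.univ.filter fun c => y ∈ Y' c).card : ℕ) : ℝ) ≤ 2 * (L : ℝ) ^ 2

/-- All sampled arcs. -/
noncomputable def allS {q : ℕ} (smp : Fin q → Finset (α × β)) : Finset (α × β) :=
  Finset.univ.biUnion smp

/-- The Hall condition for the tails of one class (3.2, M4): `F` forbidden arcs, `Sm` sampled. -/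
def Hal (E F Sm : Finset (α × β)) (X X' : Finset α) (Y : Finset β) : Prop :=
  ∀ (A : Finset α) (B : Finset β), A ⊆ X → Disjoint A X' → B ⊆ Y → B.card < A.card →
    Con (sadj E) (uni A B) → ∃ a ∈ Sm, a ∉ F ∧ a.1 ∈ A ∧ a.2 ∈ Y ∧ a.2 ∉ B

/-- The samples of one level (3.2). `F c` = forbidden arcs of the class `c`. -/
structure Lab [Fintype α] [Fintype β] (E R : Finset (α × β)) (L q : ℕ) (D : ℝ)
    (X : Fin q → Finset α) (Y : Fin q → Finset β) (X' : Fin q → Finset α) (Y' : Fin q → Finset β)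
    (F smp : Fin q → Finset (α × β)) : Prop where
  sub : ∀ c, ∀ a ∈ smp c, a ∈ R ∧ a.1 ∈ X c ∧ a.2 ∈ Y c
  dj : ∀ c d, c ≠ d → Disjoint (smp c) (smp d)
  m1 : ∀ c Q, Lnk (sadj E) Q →
    ((crs R (X c) (Y c) (clA E (L ^ 2) Q) (clB E (L ^ 2) Q) ∩ allS smp).card : ℝ) ≤
      1 / (L : ℝ) ^ 4 * cq E R (X c) (Y c) L Q + (L : ℝ) ^ 2 * Q.card
  m2 : ∀ c Q, Lnk (sadj E) Q →
    ((crs R (X c) (Y c) (clA E (L ^ 2) Q) (clB E (L ^ 2) Q) ∩ smp c).card : ℝ) ≤
      4 * (L : ℝ) ^ 5 / D * cq E R (X c) (Y c) L Q + (L : ℝ) ^ 2 * Q.card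
  m3 : ∀ c, (∀ x, ((out (R ∩ allS smp) x ∩ Y c).card : ℝ) ≤ 1 / (L : ℝ) ^ 4 * D) ∧
    ∀ y, ((inn (R ∩ allS smp) y ∩ X c).card : ℝ) ≤ 1 / (L : ℝ) ^ 4 * D
  m4 : ∀ c, Hal E (F c) (smp c) (X c) (X' c) (Y c) ∧
    Hal (tr E) (tr (F c)) (tr (smp c)) (Y c) (Y' c) (X c)

/-! ### Coins -/

/-- Different links of `M` with the same representative have opposite signs. -/
def Coin (M : Finset Λ) (rep : Λ → U) (sg : Λ → Bool) : Prop :=
  ∀ l ∈ M, ∀ l' ∈ M, l ≠ l' → rep l = rep l' → sg l ≠ sg l'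

/-- The indicator of the event that the link `l` is cut. -/
noncomputable def cv (rep : Λ → U) (sg : Λ → Bool) (ω : U → Bool) (l : Λ) : ℝ :=
  if xor (ω (rep l)) (sg l) = true then 1 else 0

/-- The links of `M` that are cut. -/
noncomputable def cut (M : Finset Λ) (rep : Λ → U) (sg : Λ → Bool) (ω : U → Bool) : Finset Λ :=
  M.filter fun l => xor (ω (rep l)) (sg l) = true

/-- The representative of a link of the class `c`, as a coordinate. -/
def rc {q : ℕ} (rep : Fin q → Λ → Λ) (c : Fin q) (l : Λ) : Fin q × Λ := (c, rep c l)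

/-- The sites of a coordinate. -/
noncomputable def locC {q : ℕ} (M : Fin q → Finset (α × β)) (rep : Fin q → α × β → α × β)
    (u : Fin q × (α × β)) : Finset (α ⊕ β) :=
  ((M u.1).filter fun l => rep u.1 l = u.2).biUnion fun l => {Sum.inl l.1, Sum.inr l.2}

/-- The data before the coins are tossed: `M c` = the links of the class `c`, `R' ⊆ R` what is left
of the available arcs. -/
structure Pre [Fintype α] [Fintype β] (E R R' : Finset (α × β)) (L q : ℕ) (D δ T Rr : ℝ)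
    (X : Fin q → Finset α) (Y : Fin q → Finset β) (M : Fin q → Finset (α × β))
    (rep : Fin q → α × β → α × β) (sg : Fin q → α × β → Bool) : Prop where
  cl : ∀ c, Cl E R (X c) (Y c) D δ
  tx : ∀ x, (((Finset.univ.filter fun c => x ∈ X c).card : ℕ) : ℝ) ≤ T
  ty : ∀ y, (((Finset.univ.filter fun c => y ∈ Y c).card : ℕ) : ℝ) ≤ T
  rl : ∀ a ∈ R, (((Finset.univ.filter fun c => a.1 ∈ X c ∧ a.2 ∈ Y c).card : ℕ) : ℝ) ≤ Rr
  sub : R' ⊆ R
  mp : ∀ c, PI (M c)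
  mR : ∀ c, ∀ a ∈ M c, a ∈ R ∧ a.1 ∈ X c ∧ a.2 ∈ Y c
  mR' : ∀ c, Disjoint (M c) R'
  m2 : ∀ c Q, Lnk (sadj E) Q →
    ((crs R (X c) (Y c) (clA E (L ^ 2) Q) (clB E (L ^ 2) Q) ∩ M c).card : ℝ) ≤
      4 * (L : ℝ) ^ 5 / D * cq E R (X c) (Y c) L Q + (L : ℝ) ^ 2 * Q.card
  cn : ∀ c, Coin (M c) (rep c) (sg c)

/-- The cut links of the class `c`. -/
noncomputable def cu {q : ℕ} (M : Fin q → Finset (α × β)) (rep : Fin q → α × β → α × β)
    (sg : Fin q → α × β → Bool) (ω : Fin q × (α × β) → Bool) (c : Fin q) : Finset (α × β) :=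
  cut (M c) (rc rep c) (sg c) ω

/-! ### Levels -/

/-- `D` at level `i`. -/
noncomputable def pD (k i : ℕ) : ℝ := (k : ℝ) / 2 ^ i

/-- `delta` at level `i`. -/
noncomputable def pd (L i : ℕ) : ℝ := 8 * i / (L : ℝ) ^ 4

/-- `eta` at level `i`. -/
noncomputable def pe (L i : ℕ) : ℝ := 30 * i / (L : ℝ) ^ 4

/-- `r` at level `i`. -/
noncomputable def pR (L i : ℕ) : ℝ := i * (252 * (L : ℝ) ^ 13 + 5)

/-- `zeta` at level `i`. -/
noncomputable def pz (L i : ℕ) : ℝ :=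
  (1 + 5 / (L : ℝ) ^ 2) * (pR L i + 252 * (L : ℝ) ^ 13 + 5)

/-- The bound for the number of classes with a token at a vertex, level `i`. -/
noncomputable def pT (L q i : ℕ) : ℝ := (1 + 1 / (L : ℝ)) ^ i * ((q : ℝ) / 2 ^ i + 2 * (L : ℝ) ^ 3)

/-- The bound for the number of classes relevant for an arc, level `i`. -/
noncomputable def pQ (L q i : ℕ) : ℝ := (1 + 1 / (L : ℝ)) ^ i * ((q : ℝ) / 4 ^ i + 4 * (L : ℝ) ^ 3)

/-- The number of slots. -/
noncomputable def pP (k L i : ℕ) : ℕ := ⌊pD k i / (L : ℝ) ^ 5⌋₊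

/-- The sink probability is `1 / pS`. -/
noncomputable def pS (k L i : ℕ) : ℕ := ⌊pD k i / pz L i⌋₊

/-- The state of the digraph at level `i`. -/
structure DSt [Fintype V] (E R : Finset (V × V)) (k L q i : ℕ) (K : Fin q → Finset (V × V))
    (X Y : Fin q → Finset V) : Prop where
  st : St E R L q (pD k i) (pd L i) (pe L i) (pR L i) (pT L q i) (pQ L q i) X Y
  sub : ∀ c, K c ⊆ E
  pi : ∀ c, PI (K c)
  ac : ∀ c, Acy (K c)
  dj : ∀ c d, c ≠ d → Disjoint (K c) (K d)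
  dR : ∀ c, Disjoint (K c) R
  dX : ∀ c, Disjoint (X c) (dom (K c))
  dY : ∀ c, Disjoint (Y c) (ran (K c))
  lx : ∀ v, (((Finset.univ.filter fun c => v ∉ dom (K c) ∧ v ∉ X c).card : ℕ) : ℝ) ≤
    2 * (L : ℝ) ^ 2 * i
  ly : ∀ v, (((Finset.univ.filter fun c => v ∉ ran (K c) ∧ v ∉ Y c).card : ℕ) : ℝ) ≤
    2 * (L : ℝ) ^ 2 * i

end Pool.Agent.LAP
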