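import Mathlib
import Pool.Agent.Helper96_LAX.Stmts
import Pool.Agent.Helper23_LAP.Defs

/-!
# LAP: exact statements of the modules

Paper proof: `/team-store/PAPER_LAC23.md`; plan of the modules: `/team-store/PLAN_LAP.md`.
-/

set_option autoImplicit false

namespace Pool.Agent.LAP

open scoped Classical

/-! ### T: tools -/

/-- TUP: upper tail, independent blocks. -/
def TUPStmt : Prop := ∀ (U S J : Type) [Fintype U] [Fintype S] [Nonempty S] (I : Finset J)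
  (f : J → (U → S) → ℝ) (Bk : J → Finset U) (b e t μ : ℝ), 0 < b → 0 ≤ e → e ≤ 1 →
  (∀ j ∈ I, ∀ ω, 0 ≤ f j ω ∧ f j ω ≤ b) → (∀ j ∈ I, Dep (Bk j) (f j)) →
  (∀ i ∈ I, ∀ j ∈ I, i ≠ j → Disjoint (Bk i) (Bk j)) → ∑ j ∈ I, ex (f j) ≤ μ →
  pr {ω | (1 + e) * μ + t ≤ ∑ j ∈ I, f j ω} ≤ Real.exp (-(e * t / b))

/-- TLO: lower tail, independent blocks. -/
def TLOStmt : Prop := ∀ (U S J : Type) [Fintype U] [Fintype S] [Nonempty S] (I : Finset J)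
  (f : J → (U → S) → ℝ) (Bk : J → Finset U) (b e t μ : ℝ), 0 < b → 0 ≤ e → e ≤ 1 → 0 ≤ μ →
  (∀ j ∈ I, ∀ ω, 0 ≤ f j ω ∧ f j ω ≤ b) → (∀ j ∈ I, Dep (Bk j) (f j)) →
  (∀ i ∈ I, ∀ j ∈ I, i ≠ j → Disjoint (Bk i) (Bk j)) → μ ≤ ∑ j ∈ I, ex (f j) →
  pr {ω | ∑ j ∈ I, f j ω ≤ (1 - e) * μ - t} ≤ Real.exp (-(e / b * (e * μ / 2 + t)))

/-- THU: upper tail for a random thinning (the label of `u` is in `g u`). -/
def THUStmt : Prop := ∀ (U S : Type) [Fintype U] [Fintype S] [Nonempty S] (I : Finset U)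
  (w : U → ℝ) (g : U → Finset S) (b e t μ : ℝ), 0 < b → 0 ≤ e → e ≤ 1 →
  (∀ u ∈ I, 0 ≤ w u ∧ w u ≤ b) →
  ∑ u ∈ I, w u * (((g u).card : ℝ) / (Fintype.card S : ℝ)) ≤ μ →
  pr {ω : U → S | (1 + e) * μ + t ≤ ∑ u ∈ I, if ω u ∈ g u then w u else 0} ≤
    Real.exp (-(e * t / b))

/-- THL: lower tail for a random thinning. -/
def THLStmt : Prop := ∀ (U S : Type) [Fintype U] [Fintype S] [Nonempty S] (I : Finset U)
  (w : U → ℝ) (g : U → Finset S) (b e t μ : ℝ), 0 < b → 0 ≤ e → e ≤ 1 → 0 ≤ μ →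
  (∀ u ∈ I, 0 ≤ w u ∧ w u ≤ b) →
  μ ≤ ∑ u ∈ I, w u * (((g u).card : ℝ) / (Fintype.card S : ℝ)) →
  pr {ω : U → S | (∑ u ∈ I, if ω u ∈ g u then w u else 0) ≤ (1 - e) * μ - t} ≤
    Real.exp (-(e / b * (e * μ / 2 + t)))

/-- MCD: bounded differences inequality for fair coins. -/
def MCDStmt : Prop := ∀ (U : Type) [Fintype U] (f : (U → Bool) → ℝ) (c : U → ℝ) (s t : ℝ),
  (∀ u ω ω', (∀ v, v ≠ u → ω v = ω' v) → |f ω - f ω'| ≤ c u) → ∑ u, c u ^ 2 ≤ s → 0 < s →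
  0 ≤ t → pr {ω | ex f + t ≤ f ω} ≤ Real.exp (-(2 * t ^ 2 / s)) ∧
    pr {ω | f ω ≤ ex f - t} ≤ Real.exp (-(2 * t ^ 2 / s))

/-- AVD: avoiding all targets. -/
def AVDStmt : Prop := ∀ (U S : Type) [Fintype U] [Fintype S] [Nonempty S] (O : Finset U)
  (s : U → S), pr {ω : U → S | ∀ u ∈ O, ω u ≠ s u} ≤
    Real.exp (-((O.card : ℝ) / (Fintype.card S : ℝ)))

/-- CNT: the number of connected sets of size `s` containing `w`. -/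
def CNTStmt : Prop := ∀ (W : Type) [Fintype W] (r : W → W → Prop) (d s : ℕ) (w : W),
  (∀ u v, r u v → r v u) → 1 ≤ d → (∀ u, (Finset.univ.filter (r u)).card ≤ d) →
  (Finset.univ.filter fun Z : Finset W => w ∈ Z ∧ Z.card = s ∧ Con r Z).card ≤ d ^ (2 * s)

/-- SLL: the local lemma for events around linked sets of sites. -/
def SLLStmt : Prop := ∀ (W U S κ : Type) [Fintype W] [Fintype U] [Fintype S] [Nonempty S]
  [Fintype κ] (r : W → W → Prop) (k L : ℕ) (loc : U → Finset W)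
  (Bad : κ → Finset W → Finset W → Set (U → S)),
  (∀ u v, r u v → r v u) → (∀ u, (Finset.univ.filter (r u)).card ≤ k) → 2 ≤ k → 10 ^ 4 ≤ L →
  k ≤ 2 ^ L → (∀ u, (loc u).card ≤ 4) → (∀ w, (Finset.univ.filter fun u => w ∈ loc u).card ≤ k ^ 5) →
  Fintype.card κ ≤ k ^ 4 → (∀ j Q Δ, Ev r L loc (Bad j Q Δ) (Q ∪ Δ)) →
  ∃ ω, ∀ j Q Δ, ω ∉ Bad j Q Δ

/-- MDT: Mendelsohn-Dulmage. -/
def MDTStmt : Prop := ∀ (α β : Type) [Fintype α] [Fintype β] (S : Finset (α × β))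
  (M₁ M₂ : Finset (α × β)), M₁ ⊆ S → M₂ ⊆ S → PI M₁ → PI M₂ →
  ∃ M ⊆ S, PI M ∧ dom M₁ ⊆ dom M ∧ ran M₂ ⊆ ran M

/-! ### S: structure of one class -/

/-- MOD: the discrepancy is modular. -/
def MODStmt : Prop := ∀ (α β : Type) [Fintype α] [Fintype β] (R : Finset (α × β))
  (X : Finset α) (Y : Finset β) (D : ℝ) (A : Finset α) (B : Finset β),
  dsc R X Y D A B = ∑ y ∈ Y ∩ B, (((inn R y ∩ X).card : ℝ) - D) -
    ∑ x ∈ X ∩ A, (((out R x ∩ Y).card : ℝ) - D)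

/-- CHG: change of the pair (2.3). -/
def CHGStmt : Prop := ∀ (α β : Type) [Fintype α] [Fintype β] (E R : Finset (α × β))
  (X : Finset α) (Y : Finset β) (D δ : ℝ) (A A' : Finset α) (B B' : Finset β), 0 ≤ D → 0 ≤ δ →
  Cl E R X Y D δ → A ⊆ X → A' ⊆ X → B ⊆ Y → B' ⊆ Y →
  |dsc R X Y D A' B' - dsc R X Y D A B| ≤
    δ * D * (((symmDiff A A').card : ℝ) + (symmDiff B B').card) ∧
  ((crs R X Y A' B').card : ℝ) ≤ (crs R X Y A B).card +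
    (1 + δ) * D * (((symmDiff A A').card : ℝ) + (symmDiff B B').card)

/-- SIZ: size of the closure (2.1). -/
def SIZStmt : Prop := ∀ (α β : Type) [Fintype α] [Fintype β] (E R : Finset (α × β))
  (X : Finset α) (Y : Finset β) (L : ℕ) (D δ : ℝ) (Q : Finset (α ⊕ β)), 0 ≤ D → δ ≤ 1 →
  Cl E R X Y D δ →
  (((X ∩ clA E (L ^ 2) Q).card : ℝ) + (Y ∩ clB E (L ^ 2) Q).card) * (L : ℝ) ^ 2 ≤
    2 * Q.card * D

/-- FAR: additivity for distant sets (2.2). -/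
def FARStmt : Prop := ∀ (α β : Type) [Fintype α] [Fintype β] (E R : Finset (α × β))
  (X : Finset α) (Y : Finset β) (L : ℕ) (D : ℝ) (Q Q' : Finset (α ⊕ β)), 1 ≤ L → R ⊆ E →
  (∀ u ∈ Q, ∀ v ∈ Q', ¬ nr3 (sadj E) u v) →
  dsc R X Y D (clA E (L ^ 2) (Q ∪ Q')) (clB E (L ^ 2) (Q ∪ Q')) =
    dsc R X Y D (clA E (L ^ 2) Q) (clB E (L ^ 2) Q) +
      dsc R X Y D (clA E (L ^ 2) Q') (clB E (L ^ 2) Q') ∧
  cq E R X Y L (Q ∪ Q') = cq E R X Y L Q + cq E R X Y L Q' ∧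
  (Y ∩ clB E (L ^ 2) (Q ∪ Q')).card =
    (Y ∩ clB E (L ^ 2) Q).card + (Y ∩ clB E (L ^ 2) Q').card ∧
  (X ∩ clA E (L ^ 2) (Q ∪ Q')).card =
    (X ∩ clA E (L ^ 2) Q).card + (X ∩ clA E (L ^ 2) Q').card

/-- ALQ: the condition (H) for all finite sets. -/
def ALQStmt : Prop := ∀ (α β : Type) [Fintype α] [Fintype β] (E R : Finset (α × β))
  (X : Finset α) (Y : Finset β) (L : ℕ) (D η r : ℝ), 1 ≤ L → R ⊆ E →
  (∀ Q, Lnk (sadj E) Q → HQ E R X Y L D η r Q) → ∀ Q, HQ E R X Y L D η r Q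

/-- FPA: fingerprint, one side (2.4). -/
def FPAStmt : Prop := ∀ (α β : Type) [Fintype α] [Fintype β] (E R : Finset (α × β))
  (X : Finset α) (Y : Finset β) (L : ℕ) (D δ : ℝ) (A : Finset α) (B : Finset β),
  10 ^ 4 ≤ L → (L : ℝ) ^ 19 ≤ D → D ≤ 2 ^ L → 0 ≤ δ → δ * (L : ℝ) ^ 3 ≤ 8 →
  Cl E R X Y D δ → A ⊆ X → B ⊆ Y →
  ∃ Q ⊆ B, (Q.card : ℝ) ≤ 4 * (L : ℝ) ^ 2 * (A.card + B.card) / D ∧
    ((symmDiff A (X ∩ clO E (L ^ 2) Q)).card : ℝ) ≤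
      4 * (aou R X Y A B).card / D + 8 * (ain R X Y A B).card / D + (A.card + B.card) / (4 * D)

/-- FPB: fingerprint (2.4). -/
def FPBStmt : Prop := ∀ (α β : Type) [Fintype α] [Fintype β] (E R : Finset (α × β))
  (X : Finset α) (Y : Finset β) (L : ℕ) (D δ : ℝ) (A : Finset α) (B : Finset β),
  10 ^ 4 ≤ L → (L : ℝ) ^ 19 ≤ D → D ≤ 2 ^ L → 0 ≤ δ → δ * (L : ℝ) ^ 3 ≤ 8 →
  Cl E R X Y D δ → A ⊆ X → B ⊆ Y →
  ∃ Q ⊆ uni A B, (Q.card : ℝ) ≤ 9 * (L : ℝ) ^ 2 * (A.card + B.card) / D ∧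
    ((symmDiff A (X ∩ clA E (L ^ 2) Q)).card : ℝ) + (symmDiff B (Y ∩ clB E (L ^ 2) Q)).card ≤
      12 * (crs R X Y A B).card / D + (A.card + B.card) / (2 * D)

/-- HAP: the condition (H) for all pairs (2.5). -/
def HAPStmt : Prop := ∀ (k L q : ℕ) (D δ η r T Rr ζ : ℝ) (P P' : ℕ),
  Prm k L q D δ η r T Rr ζ P P' → ∀ (α β : Type) [Fintype α] [Fintype β] (E R : Finset (α × β))
  (X : Finset α) (Y : Finset β), Cl E R X Y D δ →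
  (∀ Q, Lnk (sadj E) Q → HQ E R X Y L D η r Q) → ∀ A ⊆ X, ∀ B ⊆ Y, ∀ a : ℝ,
  (A.card : ℝ) + B.card ≤ 2 * a →
  dsc R X Y D A B ≤ 1 / (L : ℝ) ^ 2 * (crs R X Y A B).card + r * B.card +
    (252 * (L : ℝ) ^ 13 + 1) * a ∧
  -dsc R X Y D A B ≤ 1 / (L : ℝ) ^ 2 * (crs R X Y A B).card + r * A.card +
    (252 * (L : ℝ) ^ 13 + 1) * a

/-- The arcs of `R` that are not forbidden and go from `A` to `Y \ B`. -/
noncomputable def hO {α β : Type} (R F : Finset (α × β)) (A : Finset α) (Y B : Finset β) :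
    Finset (α × β) := R.filter fun a => a ∉ F ∧ a.1 ∈ A ∧ a.2 ∈ Y ∧ a.2 ∉ B

/-- SRH: sink-relative Hall condition (2.6). -/
def SRHStmt : Prop := ∀ (k L q : ℕ) (D δ η r T Rr ζ : ℝ) (P P' : ℕ),
  Prm k L q D δ η r T Rr ζ P P' → ∀ (α β : Type) [Fintype α] [Fintype β]
  (E R F : Finset (α × β)) (X X' : Finset α) (Y : Finset β), Cl E R X Y D δ →
  (∀ Q, Lnk (sadj E) Q → HQ E R X Y L D η r Q) → X' ⊆ X →
  (∀ y, (1 - 9 / (L : ℝ) ^ 3) * ζ ≤ ((inn R y ∩ X').card : ℝ)) → PI F →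
  ∀ A ⊆ X, Disjoint A X' → ∀ B ⊆ Y, B.card < A.card →
  1 / (L : ℝ) ^ 2 * (ain R X Y A B).card + 2 * A.card ≤ ((hO R F A Y B).card : ℝ)

/-- The tails described by `(Q, Δ)`. -/
noncomputable def dA {α β : Type} [Fintype α] [Fintype β] (E : Finset (α × β)) (L : ℕ)
    (X : Finset α) (Q Δ : Finset (α ⊕ β)) : Finset α :=
  X.filter fun x => Xor (x ∈ clA E (L ^ 2) Q) (Sum.inl x ∈ Δ)

/-- The heads described by `(Q, Δ)`. -/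
noncomputable def dB {α β : Type} [Fintype α] [Fintype β] (E : Finset (α × β)) (L : ℕ)
    (Y : Finset β) (Q Δ : Finset (α ⊕ β)) : Finset β :=
  Y.filter fun y => Xor (y ∈ clB E (L ^ 2) Q) (Sum.inr y ∈ Δ)

/-- `(Q, Δ)` is relevant for the Hall condition (2.7). -/
structure Hev {α β : Type} [Fintype α] [Fintype β] (E R F : Finset (α × β)) (X : Finset α)
    (Y : Finset β) (L : ℕ) (D : ℝ) (Q Δ : Finset (α ⊕ β)) : Prop where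
  lk : Lnk (sadj E) (Q ∪ Δ)
  nr : ∀ x ∈ dA E L X Q Δ, ∃ z ∈ Q ∪ Δ, nr1 (sadj E) (Sum.inl x) z
  cd : (L : ℝ) ^ 2 * (Q ∪ Δ).card * D ≤
    (L : ℝ) ^ 5 * (hO R F (dA E L X Q Δ) Y (dB E L Y Q Δ)).card

/-- HEV: every connected pair violating Hall's condition is described by a relevant `(Q, Δ)`. -/
def HEVStmt : Prop := ∀ (k L q : ℕ) (D δ η r T Rr ζ : ℝ) (P P' : ℕ),
  Prm k L q D δ η r T Rr ζ P P' → ∀ (α β : Type) [Fintype α] [Fintype β]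
  (E R F : Finset (α × β)) (X X' : Finset α) (Y : Finset β), Cl E R X Y D δ →
  (∀ Q, Lnk (sadj E) Q → HQ E R X Y L D η r Q) → X' ⊆ X →
  (∀ y, (1 - 9 / (L : ℝ) ^ 3) * ζ ≤ ((inn R y ∩ X').card : ℝ)) → PI F →
  ∀ A ⊆ X, Disjoint A X' → ∀ B ⊆ Y, B.card < A.card → Con (sadj E) (uni A B) →
  ∃ Q Δ : Finset (α ⊕ β), A = dA E L X Q Δ ∧ B = dB E L Y Q Δ ∧ Hev E R F X Y L D Q Δ

/-- HAL: Hall (2.8). -/
def HALStmt : Prop := ∀ (α β : Type) [Fintype α] [Fintype β] (E F Sm : Finset (α × β))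
  (X X' : Finset α) (Y : Finset β), Sm ⊆ E → Hal E F Sm X X' Y →
  ∃ M ⊆ Sm, PI M ∧ Disjoint M F ∧ X \ X' ⊆ dom M

/-! ### K: sinks (3.1). Coordinates `Fin q × (α ⊕ β)`, labels `Fin P'`, sink = label 0. -/

/-- The sinks among the tails. -/
noncomputable def skX {α β : Type} {q P' : ℕ} (X : Fin q → Finset α)
    (ω : Fin q × (α ⊕ β) → Fin P') (c : Fin q) : Finset α :=
  (X c).filter fun x => (ω (c, Sum.inl x)).val = 0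

/-- The sinks among the heads. -/
noncomputable def skY {α β : Type} {q P' : ℕ} (Y : Fin q → Finset β)
    (ω : Fin q × (α ⊕ β) → Fin P') (c : Fin q) : Finset β :=
  (Y c).filter fun y => (ω (c, Sum.inr y)).val = 0

/-- The site of a coordinate. -/
def locK {α β : Type} {q : ℕ} (u : Fin q × (α ⊕ β)) : Finset (α ⊕ β) := {u.2}

/-- SK1: event (K1). -/
def SK1Stmt : Prop := ∀ (k L q : ℕ) (D δ η r T Rr ζ : ℝ) (P P' : ℕ),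
  Prm k L q D δ η r T Rr ζ P P' → ∀ (α β : Type) [Fintype α] [Fintype β]
  (E R : Finset (α × β)) (X : Fin q → Finset α) (Y : Fin q → Finset β),
  (∀ c, Cl E R (X c) (Y c) D δ) → ∀ c Q, Lnk (sadj E) Q →
  Ev (sadj E) L locK {ω : Fin q × (α ⊕ β) → Fin P' | ¬
    (((((crs R (X c) (Y c) (clA E (L ^ 2) Q) (clB E (L ^ 2) Q)).filter
        fun a => a.1 ∈ skX X ω c).card : ℕ) : ℝ) +
      (((crs R (X c) (Y c) (clA E (L ^ 2) Q) (clB E (L ^ 2) Q)).filter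
        fun a => a.2 ∈ skY Y ω c).card : ℕ) ≤
      8 / (L : ℝ) ^ 4 * cq E R (X c) (Y c) L Q + 2 * (L : ℝ) ^ 2 * Q.card * D)} Q

/-- SK2: event (K2). -/
def SK2Stmt : Prop := ∀ (k L q : ℕ) (D δ η r T Rr ζ : ℝ) (P P' : ℕ),
  Prm k L q D δ η r T Rr ζ P P' → ∀ (α β : Type) [Fintype α] [Fintype β]
  (E R : Finset (α × β)) (X : Fin q → Finset α) (Y : Fin q → Finset β),
  (∀ c, Cl E R (X c) (Y c) D δ) → ∀ c Q, Lnk (sadj E) Q →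
  Ev (sadj E) L locK {ω : Fin q × (α ⊕ β) → Fin P' | ¬
    (((Y c ∩ clB E (L ^ 2) Q ∩ skY Y ω c).card : ℝ) ≤
      (1 + 1 / (L : ℝ) ^ 4) / P' * (Y c ∩ clB E (L ^ 2) Q).card + (L : ℝ) ^ 6 * Q.card)} Q ∧
  Ev (sadj E) L locK {ω : Fin q × (α ⊕ β) → Fin P' | ¬
    (((X c ∩ clA E (L ^ 2) Q ∩ skX X ω c).card : ℝ) ≤
      (1 + 1 / (L : ℝ) ^ 4) / P' * (X c ∩ clA E (L ^ 2) Q).card + (L : ℝ) ^ 6 * Q.card)} Q

/-- SK3: event (K3). -/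
def SK3Stmt : Prop := ∀ (k L q : ℕ) (D δ η r T Rr ζ : ℝ) (P P' : ℕ),
  Prm k L q D δ η r T Rr ζ P P' → ∀ (α β : Type) [Fintype α] [Fintype β]
  (E R : Finset (α × β)) (X : Fin q → Finset α) (Y : Fin q → Finset β),
  (∀ c, Cl E R (X c) (Y c) D δ) → ∀ c,
  (∀ x, Ev (sadj E) L locK {ω : Fin q × (α ⊕ β) → Fin P' | ¬
    ((1 - 9 / (L : ℝ) ^ 3) * ζ ≤ ((out R x ∩ skY Y ω c).card : ℝ))} {Sum.inl x}) ∧
  ∀ y, Ev (sadj E) L locK {ω : Fin q × (α ⊕ β) → Fin P' | ¬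
    ((1 - 9 / (L : ℝ) ^ 3) * ζ ≤ ((inn R y ∩ skX X ω c).card : ℝ))} {Sum.inr y}

/-- SK4: event (K4). -/
def SK4Stmt : Prop := ∀ (k L q : ℕ) (D δ η r T Rr ζ : ℝ) (P P' : ℕ),
  Prm k L q D δ η r T Rr ζ P P' → ∀ (α β : Type) [Fintype α] [Fintype β]
  (E R : Finset (α × β)) (X : Fin q → Finset α) (Y : Fin q → Finset β),
  (∀ c, Cl E R (X c) (Y c) D δ) → ∀ c,
  (∀ x, Ev (sadj E) L locK {ω : Fin q × (α ⊕ β) → Fin P' | ¬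
    (((out E x ∩ skY Y ω c).card : ℝ) ≤ 5 / (L : ℝ) ^ 4 * D)} {Sum.inl x}) ∧
  ∀ y, Ev (sadj E) L locK {ω : Fin q × (α ⊕ β) → Fin P' | ¬
    (((inn E y ∩ skX X ω c).card : ℝ) ≤ 5 / (L : ℝ) ^ 4 * D)} {Sum.inr y}

/-- SK5: event (K5). -/
def SK5Stmt : Prop := ∀ (k L q : ℕ) (D δ η r T Rr ζ : ℝ) (P P' : ℕ),
  Prm k L q D δ η r T Rr ζ P P' → ∀ (α β : Type) [Fintype α] [Fintype β]
  (E : Finset (α × β)) (X : Fin q → Finset α) (Y : Fin q → Finset β),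
  (∀ x, (((Finset.univ.filter fun c => x ∈ X c).card : ℕ) : ℝ) ≤ T) →
  (∀ y, (((Finset.univ.filter fun c => y ∈ Y c).card : ℕ) : ℝ) ≤ T) →
  (∀ x, Ev (sadj E) L locK {ω : Fin q × (α ⊕ β) → Fin P' | ¬
    ((((Finset.univ.filter fun c => x ∈ skX X ω c).card : ℕ) : ℝ) ≤ 2 * (L : ℝ) ^ 2)}
    {Sum.inl x}) ∧
  ∀ y, Ev (sadj E) L locK {ω : Fin q × (α ⊕ β) → Fin P' | ¬
    ((((Finset.univ.filter fun c => y ∈ skY Y ω c).card : ℕ) : ℝ) ≤ 2 * (L : ℝ) ^ 2)}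
    {Sum.inr y}

/-- SNK: the sinks exist. -/
def SNKStmt : Prop := ∀ (k L q : ℕ) (D δ η r T Rr ζ : ℝ) (P P' : ℕ),
  Prm k L q D δ η r T Rr ζ P P' → ∀ (α β : Type) [Fintype α] [Fintype β]
  (E R : Finset (α × β)) (X : Fin q → Finset α) (Y : Fin q → Finset β), Reg E k →
  St E R L q D δ η r T Rr X Y →
  ∃ (X' : Fin q → Finset α) (Y' : Fin q → Finset β), Snk E R L q D ζ P' X Y X' Y'

/-! ### M: labels (3.2). Coordinates `α × β` (only the arcs in `E` have a site), labels `Fin P`. -/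

/-- Classes relevant for the same arc have different slots. -/
def Slot {α β : Type} {q P : ℕ} (R : Finset (α × β)) (X : Fin q → Finset α)
    (Y : Fin q → Finset β) (slot : Fin q → α × β → Fin P) : Prop :=
  ∀ a ∈ R, ∀ c d, a.1 ∈ X c → a.2 ∈ Y c → a.1 ∈ X d → a.2 ∈ Y d → slot c a = slot d a → c = d

/-- The sampled arcs of the class `c`. -/
noncomputable def smO {α β : Type} {q P : ℕ} (R : Finset (α × β)) (X : Fin q → Finset α)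
    (Y : Fin q → Finset β) (slot : Fin q → α × β → Fin P) (ω : α × β → Fin P) (c : Fin q) :
    Finset (α × β) := R.filter fun a => (a.1 ∈ X c ∧ a.2 ∈ Y c) ∧ ω a = slot c a

/-- The site of an arc. -/
noncomputable def locM {α β : Type} (E : Finset (α × β)) (a : α × β) : Finset (α ⊕ β) :=
  if a ∈ E then {Sum.inl a.1} else ∅

/-- LB1: event (M1). -/
def LB1Stmt : Prop := ∀ (k L q : ℕ) (D δ η r T Rr ζ : ℝ) (P P' : ℕ),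
  Prm k L q D δ η r T Rr ζ P P' → ∀ (α β : Type) [Fintype α] [Fintype β]
  (E R : Finset (α × β)) (X : Fin q → Finset α) (Y : Fin q → Finset β)
  (slot : Fin q → α × β → Fin P), (∀ c, Cl E R (X c) (Y c) D δ) →
  (∀ a ∈ R, (((Finset.univ.filter fun c => a.1 ∈ X c ∧ a.2 ∈ Y c).card : ℕ) : ℝ) ≤ Rr) →
  ∀ c Q, Lnk (sadj E) Q → Ev (sadj E) L (locM E) {ω : α × β → Fin P | ¬
    (((crs R (X c) (Y c) (clA E (L ^ 2) Q) (clB E (L ^ 2) Q) ∩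
      allS (smO R X Y slot ω)).card : ℝ) ≤
      1 / (L : ℝ) ^ 4 * cq E R (X c) (Y c) L Q + (L : ℝ) ^ 2 * Q.card)} Q

/-- LB2: event (M2). -/
def LB2Stmt : Prop := ∀ (k L q : ℕ) (D δ η r T Rr ζ : ℝ) (P P' : ℕ),
  Prm k L q D δ η r T Rr ζ P P' → ∀ (α β : Type) [Fintype α] [Fintype β]
  (E R : Finset (α × β)) (X : Fin q → Finset α) (Y : Fin q → Finset β)
  (slot : Fin q → α × β → Fin P), (∀ c, Cl E R (X c) (Y c) D δ) →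
  ∀ c Q, Lnk (sadj E) Q → Ev (sadj E) L (locM E) {ω : α × β → Fin P | ¬
    (((crs R (X c) (Y c) (clA E (L ^ 2) Q) (clB E (L ^ 2) Q) ∩
      smO R X Y slot ω c).card : ℝ) ≤
      4 * (L : ℝ) ^ 5 / D * cq E R (X c) (Y c) L Q + (L : ℝ) ^ 2 * Q.card)} Q

/-- LB3: event (M3). -/
def LB3Stmt : Prop := ∀ (k L q : ℕ) (D δ η r T Rr ζ : ℝ) (P P' : ℕ),
  Prm k L q D δ η r T Rr ζ P P' → ∀ (α β : Type) [Fintype α] [Fintype β]
  (E R : Finset (α × β)) (X : Fin q → Finset α) (Y : Fin q → Finset β)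
  (slot : Fin q → α × β → Fin P), (∀ c, Cl E R (X c) (Y c) D δ) →
  (∀ a ∈ R, (((Finset.univ.filter fun c => a.1 ∈ X c ∧ a.2 ∈ Y c).card : ℕ) : ℝ) ≤ Rr) →
  ∀ c, (∀ x, Ev (sadj E) L (locM E) {ω : α × β → Fin P | ¬
    (((out (R ∩ allS (smO R X Y slot ω)) x ∩ Y c).card : ℝ) ≤ 1 / (L : ℝ) ^ 4 * D)}
    {Sum.inl x}) ∧
  ∀ y, Ev (sadj E) L (locM E) {ω : α × β → Fin P | ¬
    (((inn (R ∩ allS (smO R X Y slot ω)) y ∩ X c).card : ℝ) ≤ 1 / (L : ℝ) ^ 4 * D)}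
    {Sum.inr y}

/-- LB4: the Hall events (M4), tails. -/
def LB4Stmt : Prop := ∀ (k L q : ℕ) (D δ η r T Rr ζ : ℝ) (P P' : ℕ),
  Prm k L q D δ η r T Rr ζ P P' → ∀ (α β : Type) [Fintype α] [Fintype β]
  (E R F : Finset (α × β)) (X : Finset α) (Y : Finset β) (sl : α × β → Fin P), R ⊆ E →
  ∀ Q Δ, Hev E R F X Y L D Q Δ → Ev (sadj E) L (locM E)
    {ω : α × β → Fin P | ∀ a ∈ hO R F (dA E L X Q Δ) Y (dB E L Y Q Δ), ω a ≠ sl a} (Q ∪ Δ)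

/-- LB5: the Hall events (M4), heads. -/
def LB5Stmt : Prop := ∀ (k L q : ℕ) (D δ η r T Rr ζ : ℝ) (P P' : ℕ),
  Prm k L q D δ η r T Rr ζ P P' → ∀ (α β : Type) [Fintype α] [Fintype β]
  (E R F : Finset (α × β)) (X : Finset α) (Y : Finset β) (sl : α × β → Fin P), R ⊆ E →
  ∀ Q Δ, Hev (tr E) (tr R) (tr F) Y X L D Q Δ → Ev (sadj E) L (locM E)
    {ω : α × β → Fin P | ∀ a ∈ hO (tr R) (tr F) (dA (tr E) L Y Q Δ) X (dB (tr E) L X Q Δ),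
      ω a.swap ≠ sl a.swap} (Q.image Sum.swap ∪ Δ.image Sum.swap)

/-- LAB: the samples exist. -/
def LABStmt : Prop := ∀ (k L q : ℕ) (D δ η r T Rr ζ : ℝ) (P P' : ℕ),
  Prm k L q D δ η r T Rr ζ P P' → ∀ (α β : Type) [Fintype α] [Fintype β]
  (E R : Finset (α × β)) (X : Fin q → Finset α) (Y : Fin q → Finset β)
  (X' : Fin q → Finset α) (Y' : Fin q → Finset β) (F : Fin q → Finset (α × β)), Reg E k →
  St E R L q D δ η r T Rr X Y → Snk E R L q D ζ P' X Y X' Y' → (∀ c, PI (F c)) →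
  ∃ smp : Fin q → Finset (α × β), Lab E R L q D X Y X' Y' F smp

/-- MAT: the matchings exist. -/
def MATStmt : Prop := ∀ (α β : Type) [Fintype α] [Fintype β] (E R : Finset (α × β)) (L q : ℕ)
  (D : ℝ) (X : Fin q → Finset α) (Y : Fin q → Finset β) (X' : Fin q → Finset α)
  (Y' : Fin q → Finset β) (F smp : Fin q → Finset (α × β)), R ⊆ E →
  Lab E R L q D X Y X' Y' F smp → ∀ c, ∃ M ⊆ smp c, PI M ∧ Disjoint M (F c) ∧
    X c \ X' c ⊆ dom M ∧ Y c \ Y' c ⊆ ran M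

/-! ### C: coins (3.3). Coordinates `Fin q × (α × β)`. -/

/-- LIN: the mean and the tails of a linear form. -/
def LINStmt : Prop := ∀ (U Λ : Type) [Fintype U] [Fintype Λ] (M : Finset Λ) (rep : Λ → U)
  (sg : Λ → Bool), Coin M rep sg → (∀ l, ex (fun ω => cv rep sg ω l) = 1 / 2) ∧
  ∀ J ⊆ M, ∀ s t : ℝ, (J.card : ℝ) ≤ s → 0 < s → 0 ≤ t →
    pr {ω | (J.card : ℝ) / 2 + t ≤ ∑ l ∈ J, cv rep sg ω l} ≤ Real.exp (-(t ^ 2 / s)) ∧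
    pr {ω | ∑ l ∈ J, cv rep sg ω l ≤ (J.card : ℝ) / 2 - t} ≤ Real.exp (-(t ^ 2 / s))

/-- QFM: the mean of a quadratic form. -/
def QFMStmt : Prop := ∀ (U Λ : Type) [Fintype U] [Fintype Λ] (M : Finset Λ) (rep : Λ → U)
  (sg : Λ → Bool) (I : Finset (Λ × Λ)), Coin M rep sg →
  (∀ p ∈ I, p.1 ∈ M ∧ p.2 ∈ M ∧ p.1 ≠ p.2) →
  ex (fun ω => ∑ p ∈ I, cv rep sg ω p.1 * cv rep sg ω p.2) =
    ((I.card : ℝ) - ((I.filter fun p => rep p.1 = rep p.2).card : ℕ)) / 4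

/-- QFT: the tails of a quadratic form. -/
def QFTStmt : Prop := ∀ (U Λ : Type) [Fintype U] [Fintype Λ] (M : Finset Λ) (rep : Λ → U)
  (sg : Λ → Bool) (I O : Finset (Λ × Λ)) (SS CC : Finset Λ) (d A s t : ℝ), Coin M rep sg →
  (∀ p ∈ I ∪ O, p.1 ∈ M ∧ p.2 ∈ M ∧ p.1 ≠ p.2) → SS ⊆ M → CC ⊆ M →
  (∀ l ∈ M, ((((I.filter fun p => p.1 = l ∨ p.2 = l).card : ℕ) : ℝ) +
    ((O.filter fun p => p.1 = l ∨ p.2 = l).card : ℕ) ≤ A)) → 0 ≤ d → 0 ≤ t → 0 < s →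
  8 * A * (I.card + O.card) + 4 * d ^ 2 * (symmDiff SS CC).card ≤ s →
  let f : (U → Bool) → ℝ := fun ω => ∑ p ∈ I, cv rep sg ω p.1 * cv rep sg ω p.2 -
    ∑ p ∈ O, cv rep sg ω p.1 * cv rep sg ω p.2 -
    d * (∑ l ∈ SS, cv rep sg ω l - ∑ l ∈ CC, cv rep sg ω l)
  pr {ω | ex f + t ≤ f ω} ≤ Real.exp (-(2 * t ^ 2 / s)) ∧
    pr {ω | f ω ≤ ex f - t} ≤ Real.exp (-(2 * t ^ 2 / s))

/-- LOS: what is lost before the coins are tossed (3.3a). -/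
def LOSStmt : Prop := ∀ (k L q : ℕ) (D δ η r T Rr ζ : ℝ) (P P' : ℕ),
  Prm k L q D δ η r T Rr ζ P P' → ∀ (α β : Type) [Fintype α] [Fintype β]
  (E R : Finset (α × β)) (X : Fin q → Finset α) (Y : Fin q → Finset β)
  (X' : Fin q → Finset α) (Y' : Fin q → Finset β) (F smp M : Fin q → Finset (α × β)),
  St E R L q D δ η r T Rr X Y → Snk E R L q D ζ P' X Y X' Y' →
  Lab E R L q D X Y X' Y' F smp → (∀ c, M c ⊆ smp c) → (∀ c, PI (M c)) →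
  (∀ c, X c \ X' c ⊆ dom (M c)) → (∀ c, Y c \ Y' c ⊆ ran (M c)) →
  ∀ c Q, Lnk (sadj E) Q →
  (cq E R (X c) (Y c) L Q ≤ cq E (R \ allS smp) (dom (M c)) (ran (M c)) L Q +
    9 / (L : ℝ) ^ 4 * cq E R (X c) (Y c) L Q + 3 * (L : ℝ) ^ 2 * Q.card * D) ∧
  (dsc (R \ allS smp) (dom (M c)) (ran (M c)) D (clA E (L ^ 2) Q) (clB E (L ^ 2) Q) ≤
    dsc R (X c) (Y c) D (clA E (L ^ 2) Q) (clB E (L ^ 2) Q) +
    9 / (L : ℝ) ^ 4 * cq E R (X c) (Y c) L Q + 3 * (L : ℝ) ^ 2 * Q.card * D +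
    (1 + 1 / (L : ℝ) ^ 4) * (D / P') * (Y c ∩ clB E (L ^ 2) Q).card +
    (L : ℝ) ^ 6 * Q.card * D) ∧
  (-dsc (R \ allS smp) (dom (M c)) (ran (M c)) D (clA E (L ^ 2) Q) (clB E (L ^ 2) Q) ≤
    -dsc R (X c) (Y c) D (clA E (L ^ 2) Q) (clB E (L ^ 2) Q) +
    9 / (L : ℝ) ^ 4 * cq E R (X c) (Y c) L Q + 3 * (L : ℝ) ^ 2 * Q.card * D +
    (1 + 1 / (L : ℝ) ^ 4) * (D / P') * (X c ∩ clA E (L ^ 2) Q).card +
    (L : ℝ) ^ 6 * Q.card * D) ∧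
  (((Y c ∩ clB E (L ^ 2) Q).card : ℝ) ≤ (ran (M c) ∩ clB E (L ^ 2) Q).card +
    3 / (L : ℝ) ^ 4 * (Y c ∩ clB E (L ^ 2) Q).card + (L : ℝ) ^ 6 * Q.card) ∧
  (((X c ∩ clA E (L ^ 2) Q).card : ℝ) ≤ (dom (M c) ∩ clA E (L ^ 2) Q).card +
    3 / (L : ℝ) ^ 4 * (X c ∩ clA E (L ^ 2) Q).card + (L : ℝ) ^ 6 * Q.card)

/-- LOD: the degrees before the coins are tossed (3.3e). -/
def LODStmt : Prop := ∀ (k L q : ℕ) (D δ η r T Rr ζ : ℝ) (P P' : ℕ),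
  Prm k L q D δ η r T Rr ζ P P' → ∀ (α β : Type) [Fintype α] [Fintype β]
  (E R : Finset (α × β)) (X : Fin q → Finset α) (Y : Fin q → Finset β)
  (X' : Fin q → Finset α) (Y' : Fin q → Finset β) (F smp M : Fin q → Finset (α × β)),
  St E R L q D δ η r T Rr X Y → Snk E R L q D ζ P' X Y X' Y' →
  Lab E R L q D X Y X' Y' F smp → (∀ c, M c ⊆ smp c) →
  (∀ c, X c \ X' c ⊆ dom (M c)) → (∀ c, Y c \ Y' c ⊆ ran (M c)) →
  ∀ c, (∀ x, (1 - δ - 6 / (L : ℝ) ^ 4) * D ≤ ((out (R \ allS smp) x ∩ ran (M c)).card : ℝ)) ∧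
    ∀ y, (1 - δ - 6 / (L : ℝ) ^ 4) * D ≤ ((inn (R \ allS smp) y ∩ dom (M c)).card : ℝ)

/-- CN1: the event for the discrepancy (3.3b, c). -/
def CN1Stmt : Prop := ∀ (k L q : ℕ) (D δ η r T Rr ζ : ℝ) (P P' : ℕ),
  Prm k L q D δ η r T Rr ζ P P' → ∀ (α β : Type) [Fintype α] [Fintype β]
  (E R R' : Finset (α × β)) (X : Fin q → Finset α) (Y : Fin q → Finset β)
  (M : Fin q → Finset (α × β)) (rep : Fin q → α × β → α × β) (sg : Fin q → α × β → Bool),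
  Pre E R R' L q D δ T Rr X Y M rep sg → ∀ c Q, Lnk (sadj E) Q →
  Ev (sadj E) L (locC M rep) {ω | ¬
    (|dsc R' (dom (cu M rep sg ω c)) (ran (cu M rep sg ω c)) (D / 2)
        (clA E (L ^ 2) Q) (clB E (L ^ 2) Q) -
      dsc R' (dom (M c)) (ran (M c)) D (clA E (L ^ 2) Q) (clB E (L ^ 2) Q) / 4| ≤
      1 / (L : ℝ) ^ 4 * cq E R (X c) (Y c) L Q +
        (3 * (L : ℝ) ^ 11 + 1) * Q.card * D)} Q

/-- CN2: the event for the crossing arcs. -/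
def CN2Stmt : Prop := ∀ (k L q : ℕ) (D δ η r T Rr ζ : ℝ) (P P' : ℕ),
  Prm k L q D δ η r T Rr ζ P P' → ∀ (α β : Type) [Fintype α] [Fintype β]
  (E R R' : Finset (α × β)) (X : Fin q → Finset α) (Y : Fin q → Finset β)
  (M : Fin q → Finset (α × β)) (rep : Fin q → α × β → α × β) (sg : Fin q → α × β → Bool),
  Pre E R R' L q D δ T Rr X Y M rep sg → ∀ c Q, Lnk (sadj E) Q →
  Ev (sadj E) L (locC M rep) {ω | ¬
    (cq E R' (dom (M c)) (ran (M c)) L Q / 4 ≤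
      cq E R' (dom (cu M rep sg ω c)) (ran (cu M rep sg ω c)) L Q +
      1 / (L : ℝ) ^ 4 * cq E R (X c) (Y c) L Q + 10 * (L : ℝ) ^ 6 * Q.card * D)} Q

/-- CN3: the event for the sizes. -/
def CN3Stmt : Prop := ∀ (k L q : ℕ) (D δ η r T Rr ζ : ℝ) (P P' : ℕ),
  Prm k L q D δ η r T Rr ζ P P' → ∀ (α β : Type) [Fintype α] [Fintype β]
  (E R R' : Finset (α × β)) (X : Fin q → Finset α) (Y : Fin q → Finset β)
  (M : Fin q → Finset (α × β)) (rep : Fin q → α × β → α × β) (sg : Fin q → α × β → Bool),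
  Pre E R R' L q D δ T Rr X Y M rep sg → ∀ c Q, Lnk (sadj E) Q →
  Ev (sadj E) L (locC M rep) {ω | ¬
    (((ran (M c) ∩ clB E (L ^ 2) Q).card : ℝ) / 2 ≤
      (ran (cu M rep sg ω c) ∩ clB E (L ^ 2) Q).card +
      1 / (L : ℝ) ^ 4 * (Y c ∩ clB E (L ^ 2) Q).card + (L : ℝ) ^ 6 * Q.card)} Q ∧
  Ev (sadj E) L (locC M rep) {ω | ¬
    (((dom (M c) ∩ clA E (L ^ 2) Q).card : ℝ) / 2 ≤
      (dom (cu M rep sg ω c) ∩ clA E (L ^ 2) Q).card +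
      1 / (L : ℝ) ^ 4 * (X c ∩ clA E (L ^ 2) Q).card + (L : ℝ) ^ 6 * Q.card)} Q

/-- CN4: the events for the degrees. -/
def CN4Stmt : Prop := ∀ (k L q : ℕ) (D δ η r T Rr ζ : ℝ) (P P' : ℕ),
  Prm k L q D δ η r T Rr ζ P P' → ∀ (α β : Type) [Fintype α] [Fintype β]
  (E R R' : Finset (α × β)) (X : Fin q → Finset α) (Y : Fin q → Finset β)
  (M : Fin q → Finset (α × β)) (rep : Fin q → α × β → α × β) (sg : Fin q → α × β → Bool),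
  Pre E R R' L q D δ T Rr X Y M rep sg → ∀ c,
  (∀ x, Ev (sadj E) L (locC M rep) {ω | ¬
      (((out R' x ∩ ran (M c)).card : ℝ) / 2 ≤
        (out R' x ∩ ran (cu M rep sg ω c)).card + 1 / (L : ℝ) ^ 4 * D)} {Sum.inl x} ∧
    Ev (sadj E) L (locC M rep) {ω | ¬
      (((out E x ∩ ran (cu M rep sg ω c)).card : ℝ) ≤
        (out E x ∩ Y c).card / 2 + 1 / (L : ℝ) ^ 4 * D)} {Sum.inl x}) ∧
  ∀ y, Ev (sadj E) L (locC M rep) {ω | ¬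
      (((inn R' y ∩ dom (M c)).card : ℝ) / 2 ≤
        (inn R' y ∩ dom (cu M rep sg ω c)).card + 1 / (L : ℝ) ^ 4 * D)} {Sum.inr y} ∧
    Ev (sadj E) L (locC M rep) {ω | ¬
      (((inn E y ∩ dom (cu M rep sg ω c)).card : ℝ) ≤
        (inn E y ∩ X c).card / 2 + 1 / (L : ℝ) ^ 4 * D)} {Sum.inr y}

/-- CN5: the events for the numbers of classes at a site. -/
def CN5Stmt : Prop := ∀ (k L q : ℕ) (D δ η r T Rr ζ : ℝ) (P P' : ℕ),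
  Prm k L q D δ η r T Rr ζ P P' → ∀ (α β : Type) [Fintype α] [Fintype β]
  (E R R' : Finset (α × β)) (X : Fin q → Finset α) (Y : Fin q → Finset β)
  (M : Fin q → Finset (α × β)) (rep : Fin q → α × β → α × β) (sg : Fin q → α × β → Bool),
  Pre E R R' L q D δ T Rr X Y M rep sg →
  (∀ x, Ev (sadj E) L (locC M rep) {ω | ¬
    ((((Finset.univ.filter fun c => x ∈ dom (cu M rep sg ω c)).card : ℕ) : ℝ) ≤
      (1 + 1 / (L : ℝ)) * (T / 2) + (L : ℝ) ^ 3)} {Sum.inl x}) ∧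
  ∀ y, Ev (sadj E) L (locC M rep) {ω | ¬
    ((((Finset.univ.filter fun c => y ∈ ran (cu M rep sg ω c)).card : ℕ) : ℝ) ≤
      (1 + 1 / (L : ℝ)) * (T / 2) + (L : ℝ) ^ 3)} {Sum.inr y}

/-- CN6: the events for the numbers of classes relevant for an arc. -/
def CN6Stmt : Prop := ∀ (k L q : ℕ) (D δ η r T Rr ζ : ℝ) (P P' : ℕ),
  Prm k L q D δ η r T Rr ζ P P' → ∀ (α β : Type) [Fintype α] [Fintype β]
  (E R R' : Finset (α × β)) (X : Fin q → Finset α) (Y : Fin q → Finset β)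
  (M : Fin q → Finset (α × β)) (rep : Fin q → α × β → α × β) (sg : Fin q → α × β → Bool),
  Pre E R R' L q D δ T Rr X Y M rep sg → R ⊆ E → ∀ a ∈ R',
  Ev (sadj E) L (locC M rep) {ω | ¬
    ((((Finset.univ.filter fun c => a.1 ∈ dom (cu M rep sg ω c) ∧
      a.2 ∈ ran (cu M rep sg ω c)).card : ℕ) : ℝ) ≤
      (1 + 1 / (L : ℝ)) * (Rr / 4) + 2 * (L : ℝ) ^ 3)} {Sum.inl a.1, Sum.inr a.2}

/-- COA: good coins. -/
def COAStmt : Prop := ∀ (k L q : ℕ) (D δ η r T Rr ζ : ℝ) (P P' : ℕ),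
  Prm k L q D δ η r T Rr ζ P P' → ∀ (α β : Type) [Fintype α] [Fintype β]
  (E R R' : Finset (α × β)) (X : Fin q → Finset α) (Y : Fin q → Finset β)
  (M : Fin q → Finset (α × β)) (rep : Fin q → α × β → α × β) (sg : Fin q → α × β → Bool),
  Reg E k → R ⊆ E → Pre E R R' L q D δ T Rr X Y M rep sg →
  ∃ ω : Fin q × (α × β) → Bool,
  (∀ c Q, Lnk (sadj E) Q →
    |dsc R' (dom (cu M rep sg ω c)) (ran (cu M rep sg ω c)) (D / 2)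
        (clA E (L ^ 2) Q) (clB E (L ^ 2) Q) -
      dsc R' (dom (M c)) (ran (M c)) D (clA E (L ^ 2) Q) (clB E (L ^ 2) Q) / 4| ≤
      1 / (L : ℝ) ^ 4 * cq E R (X c) (Y c) L Q + (3 * (L : ℝ) ^ 11 + 1) * Q.card * D ∧
    cq E R' (dom (M c)) (ran (M c)) L Q / 4 ≤
      cq E R' (dom (cu M rep sg ω c)) (ran (cu M rep sg ω c)) L Q +
      1 / (L : ℝ) ^ 4 * cq E R (X c) (Y c) L Q + 10 * (L : ℝ) ^ 6 * Q.card * D ∧
    ((ran (M c) ∩ clB E (L ^ 2) Q).card : ℝ) / 2 ≤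
      (ran (cu M rep sg ω c) ∩ clB E (L ^ 2) Q).card +
      1 / (L : ℝ) ^ 4 * (Y c ∩ clB E (L ^ 2) Q).card + (L : ℝ) ^ 6 * Q.card ∧
    ((dom (M c) ∩ clA E (L ^ 2) Q).card : ℝ) / 2 ≤
      (dom (cu M rep sg ω c) ∩ clA E (L ^ 2) Q).card +
      1 / (L : ℝ) ^ 4 * (X c ∩ clA E (L ^ 2) Q).card + (L : ℝ) ^ 6 * Q.card) ∧
  (∀ c, (∀ x, ((out R' x ∩ ran (M c)).card : ℝ) / 2 ≤
        (out R' x ∩ ran (cu M rep sg ω c)).card + 1 / (L : ℝ) ^ 4 * D ∧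
      ((out E x ∩ ran (cu M rep sg ω c)).card : ℝ) ≤
        (out E x ∩ Y c).card / 2 + 1 / (L : ℝ) ^ 4 * D) ∧
    ∀ y, ((inn R' y ∩ dom (M c)).card : ℝ) / 2 ≤
        (inn R' y ∩ dom (cu M rep sg ω c)).card + 1 / (L : ℝ) ^ 4 * D ∧
      ((inn E y ∩ dom (cu M rep sg ω c)).card : ℝ) ≤
        (inn E y ∩ X c).card / 2 + 1 / (L : ℝ) ^ 4 * D) ∧
  (∀ x, (((Finset.univ.filter fun c => x ∈ dom (cu M rep sg ω c)).card : ℕ) : ℝ) ≤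
    (1 + 1 / (L : ℝ)) * (T / 2) + (L : ℝ) ^ 3) ∧
  (∀ y, (((Finset.univ.filter fun c => y ∈ ran (cu M rep sg ω c)).card : ℕ) : ℝ) ≤
    (1 + 1 / (L : ℝ)) * (T / 2) + (L : ℝ) ^ 3) ∧
  ∀ a ∈ R', (((Finset.univ.filter fun c => a.1 ∈ dom (cu M rep sg ω c) ∧
      a.2 ∈ ran (cu M rep sg ω c)).card : ℕ) : ℝ) ≤
    (1 + 1 / (L : ℝ)) * (Rr / 4) + 2 * (L : ℝ) ^ 3

/-- NXA: the arithmetic of (3.3d). `N, cr, S` before, `N', cr', S'` = links, `N₁, cr₁, S₁` after. -/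
def NXAStmt : Prop := ∀ (k L q : ℕ) (D δ η r T Rr ζ : ℝ) (P P' : ℕ) (δ' η' r' T' R' : ℝ),
  Prm k L q D δ η r T Rr ζ P P' → Nxt L D δ η r T Rr P' δ' η' r' T' R' →
  ∀ N N' N₁ cr cr' cr₁ S S' S₁ s : ℝ, 0 ≤ cr → 0 ≤ cr₁ → 0 ≤ S → 0 ≤ S₁ → 0 ≤ s →
  N ≤ η * cr + r * S + 14 * (L : ℝ) ^ 11 * s * D →
  cr ≤ cr' + 9 / (L : ℝ) ^ 4 * cr + 3 * (L : ℝ) ^ 2 * s * D →
  N' ≤ N + 9 / (L : ℝ) ^ 4 * cr + 3 * (L : ℝ) ^ 2 * s * D +
    (1 + 1 / (L : ℝ) ^ 4) * (D / P') * S + (L : ℝ) ^ 6 * s * D →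
  S ≤ S' + 3 / (L : ℝ) ^ 4 * S + (L : ℝ) ^ 6 * s →
  N₁ - N' / 4 ≤ 1 / (L : ℝ) ^ 4 * cr + (3 * (L : ℝ) ^ 11 + 1) * s * D →
  cr' / 4 ≤ cr₁ + 1 / (L : ℝ) ^ 4 * cr + 10 * (L : ℝ) ^ 6 * s * D →
  S' / 2 ≤ S₁ + 1 / (L : ℝ) ^ 4 * S + (L : ℝ) ^ 6 * s →
  N₁ ≤ η' * cr₁ + r' * S₁ + 14 * (L : ℝ) ^ 11 * s * (D / 2)

/-- COI: the coin step. -/
def COIStmt : Prop := ∀ (k L q : ℕ) (D δ η r T Rr ζ : ℝ) (P P' : ℕ) (δ' η' r' T' R' : ℝ),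
  Prm k L q D δ η r T Rr ζ P P' → Nxt L D δ η r T Rr P' δ' η' r' T' R' →
  ∀ (α β : Type) [Fintype α] [Fintype β]
  (E R : Finset (α × β)) (X : Fin q → Finset α) (Y : Fin q → Finset β)
  (X' : Fin q → Finset α) (Y' : Fin q → Finset β) (F smp M : Fin q → Finset (α × β))
  (rep : Fin q → α × β → α × β) (sg : Fin q → α × β → Bool), Reg E k → R ⊆ E →
  St E R L q D δ η r T Rr X Y → Snk E R L q D ζ P' X Y X' Y' →
  Lab E R L q D X Y X' Y' F smp → (∀ c, M c ⊆ smp c) → (∀ c, PI (M c)) →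
  (∀ c, X c \ X' c ⊆ dom (M c)) → (∀ c, Y c \ Y' c ⊆ ran (M c)) →
  (∀ c, Coin (M c) (rep c) (sg c)) →
  ∃ ω : Fin q × (α × β) → Bool, St E (R \ allS smp) L q (D / 2) δ' η' r' T' R'
    (fun c => dom (cu M rep sg ω c)) (fun c => ran (cu M rep sg ω c))

/-- LVL: the level step of the bipartite system. -/
def LVLStmt : Prop := ∀ (k L q : ℕ) (D δ η r T Rr ζ : ℝ) (P P' : ℕ) (δ' η' r' T' R' : ℝ),
  Prm k L q D δ η r T Rr ζ P P' → Nxt L D δ η r T Rr P' δ' η' r' T' R' →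
  ∀ (α β : Type) [Fintype α] [Fintype β]
  (E R : Finset (α × β)) (X : Fin q → Finset α) (Y : Fin q → Finset β)
  (F : Fin q → Finset (α × β)), Reg E k → R ⊆ E → St E R L q D δ η r T Rr X Y →
  (∀ c, PI (F c)) →
  ∃ (R₁ : Finset (α × β)) (M : Fin q → Finset (α × β)), R₁ ⊆ R ∧
    (∀ c, PI (M c) ∧ Disjoint (M c) (F c) ∧ Disjoint (M c) R₁ ∧
      ∀ a ∈ M c, a ∈ R ∧ a.1 ∈ X c ∧ a.2 ∈ Y c) ∧
    (∀ c d, c ≠ d → Disjoint (M c) (M d)) ∧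
    (∀ x, (((Finset.univ.filter fun c => x ∈ X c ∧ x ∉ dom (M c)).card : ℕ) : ℝ) ≤
      2 * (L : ℝ) ^ 2) ∧
    (∀ y, (((Finset.univ.filter fun c => y ∈ Y c ∧ y ∉ ran (M c)).card : ℕ) : ℝ) ≤
      2 * (L : ℝ) ^ 2) ∧
    ∀ (rep : Fin q → α × β → α × β) (sg : Fin q → α × β → Bool),
      (∀ c, Coin (M c) (rep c) (sg c)) →
      ∃ ω : Fin q × (α × β) → Bool, St E R₁ L q (D / 2) δ' η' r' T' R'
        (fun c => dom (cu M rep sg ω c)) (fun c => ran (cu M rep sg ω c))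

/-! ### D: digraphs -/

/-- FRB: the forbidden arcs. -/
def FRBStmt : Prop := ∀ (V : Type) [Fintype V] (K : Finset (V × V)) (X Y : Finset V), PI K →
  Acy K → Disjoint X (dom K) → Disjoint Y (ran K) →
  PI (Finset.univ.filter fun a : V × V => (a.1 ∈ X ∧ a.2 ∈ Y) ∧
    Relation.ReflTransGen (fun u v => (u, v) ∈ K) a.2 a.1)

/-- PAI: one pair of links on every cycle. -/
def PAIStmt : Prop := ∀ (V : Type) [Fintype V] (K M : Finset (V × V)), PI K → Acy K → PI M →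
  Disjoint (dom M) (dom K) → Disjoint (ran M) (ran K) →
  (∀ a ∈ M, ¬ Relation.ReflTransGen (fun u v => (u, v) ∈ K) a.2 a.1) →
  ∃ (rep : V × V → V × V) (sg : V × V → Bool), Coin M rep sg ∧
    ∀ ω : V × V → Bool, Acy ((K ∪ M) \ cut M rep sg ω)

/-- STP: one level. -/
def STPStmt : Prop := ∀ (V : Type) [Fintype V] (E R : Finset (V × V)) (k L q i : ℕ)
  (K : Fin q → Finset (V × V)) (X Y : Fin q → Finset V), 10 ^ 4 ≤ L → k ≤ 2 ^ L →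
  q * L ^ 16 ≤ k → i ≤ L → (L : ℝ) ^ 19 ≤ pD k i → Reg E k → R ⊆ E → DSt E R k L q i K X Y →
  ∃ (R₁ : Finset (V × V)) (K₁ : Fin q → Finset (V × V)) (X₁ Y₁ : Fin q → Finset V), R₁ ⊆ E ∧
    DSt E R₁ k L q (i + 1) K₁ X₁ Y₁

/-- INI: level 0. -/
def INIStmt : Prop := ∀ (V : Type) [Fintype V] (E : Finset (V × V)) (k L q : ℕ), 1 ≤ L →
  Reg E k → DSt E E k L q 0 (fun _ => ∅) (fun _ => Finset.univ) (fun _ => Finset.univ)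

/-- ITR: the last level. -/
def ITRStmt : Prop := ∀ (V : Type) [Fintype V] (E : Finset (V × V)) (k L q : ℕ),
  10 ^ 4 ≤ L → k ≤ 2 ^ L → q * L ^ 16 ≤ k → Reg E k →
  ∃ m ≤ L, pD k m ≤ 2 * (L : ℝ) ^ 19 ∧ ∃ (R : Finset (V × V)) (K : Fin q → Finset (V × V))
    (X Y : Fin q → Finset V), DSt E R k L q m K X Y

/-- PRM: the parameters of level `i` are good. -/
def PRMStmt : Prop := ∀ k L q i : ℕ, 10 ^ 4 ≤ L → k ≤ 2 ^ L → q * L ^ 16 ≤ k → i ≤ L →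
  (L : ℝ) ^ 19 ≤ pD k i →
  Prm k L q (pD k i) (pd L i) (pe L i) (pR L i) (pT L q i) (pQ L q i) (pz L i) (pP k L i)
    (pS k L i)

/-- PRN: the parameters of level `i + 1`. -/
def PRNStmt : Prop := ∀ k L q i : ℕ, 10 ^ 4 ≤ L → k ≤ 2 ^ L → q * L ^ 16 ≤ k → i ≤ L →
  (L : ℝ) ^ 19 ≤ pD k i →
  Nxt L (pD k i) (pd L i) (pe L i) (pR L i) (pT L q i) (pQ L q i) (pS k L i) (pd L (i + 1))
    (pe L (i + 1)) (pR L (i + 1)) (pT L q (i + 1)) (pQ L q (i + 1))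

/-- RND: the round lemma, in the language of `Pool.Agent.LAX`. -/
def RNDStmt : Prop := ∀ k L : ℕ, 10 ^ 4 ≤ L → k ≤ 2 ^ L →
  ∀ (V : Type) [Finite V] (E : Set (V × V)), Pool.Agent.LAX.Reg E k →
  Pool.Agent.LAX.Round E (k / L ^ 16) (14 * L ^ 3)

/-! ### F: conclusion -/

/-- REK: the recursion for large `k`. -/
def REKStmt : Prop := ∃ k₀ : ℕ, ∀ k ≥ k₀, ∃ q err : ℕ, 1 ≤ q ∧ q ≤ k ∧ 2 * err ≤ q ∧
  (err : ℝ) * k ≤ 28 * 3 ^ 19 * q * (1 + Real.log k) ^ 19 ∧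
  ∀ n, Pool.Agent.LAX.Cov (k - q + err) n → Pool.Agent.LAX.Cov k (q + n)

/-- ANB: solution of the recursion. -/
def ANBStmt : Prop := ∀ (Q : ℕ → ℕ → Prop) (k₀ : ℕ) (c : ℝ), (∀ k, Q k (2 * k)) →
  (∀ k ≥ k₀, ∃ q err : ℕ, 1 ≤ q ∧ q ≤ k ∧ 2 * err ≤ q ∧
    (err : ℝ) * k ≤ c * q * (1 + Real.log k) ^ 19 ∧ ∀ n, Q (k - q + err) n → Q k (q + n)) →
  ∃ C : ℝ, ∀ k ≥ 1, ∃ n : ℕ, Q k n ∧ (n : ℝ) ≤ k + C * (1 + Real.log k) ^ 20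

/-- FIN: the theorem. -/
def FINStmt : Prop := ∃ C : ℝ, ∀ (V : Type) [Finite V] (G : SimpleGraph V) (Δ : ℕ), 1 ≤ Δ →
  (∀ v, (G.neighborSet v).ncard ≤ Δ) → ∃ n : ℕ, Pool.Agent.Helper14_LA.CoveredBy G n ∧
  (n : ℝ) ≤ Δ / 2 + C * (1 + Real.log Δ) ^ 20

end Pool.Agent.LAP
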