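import Mathlib
import Pool.Agent.Helper23_LAP.Defs

/-!
# LAP: basic lemmas

Membership, transposition, sites, probabilities.
-/

set_option autoImplicit false

namespace Pool.Agent.LAP

open scoped Classical

variable {α β V W U S Λ γ : Type}

/-! ### Membership -/

@[simp] theorem mem_out [Fintype β] {R : Finset (α × β)} {x : α} {y : β} :
    y ∈ out R x ↔ (x, y) ∈ R := by simp [out]

@[simp] theorem mem_inn [Fintype α] {R : Finset (α × β)} {x : α} {y : β} :
    x ∈ inn R y ↔ (x, y) ∈ R := by simp [inn]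

theorem mem_dom {R : Finset (α × β)} {x : α} : x ∈ dom R ↔ ∃ y, (x, y) ∈ R := by
  simp [dom]

theorem mem_ran {R : Finset (α × β)} {y : β} : y ∈ ran R ↔ ∃ x, (x, y) ∈ R := by
  simp [ran]

@[simp] theorem mem_tr {R : Finset (α × β)} {a : β × α} : a ∈ tr R ↔ a.swap ∈ R := by
  rw [tr, Finset.mem_image]
  constructor
  · rintro ⟨b, hb, rfl⟩
    simpa using hb
  · intro h
    exact ⟨a.swap, h, by simp⟩

theorem mem_ain {R : Finset (α × β)} {X : Finset α} {Y : Finset β} {A : Finset α} {B : Finset β}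
    {a : α × β} : a ∈ ain R X Y A B ↔ a ∈ R ∧ (a.1 ∈ X ∧ a.1 ∉ A) ∧ a.2 ∈ Y ∧ a.2 ∈ B := by
  simp [ain]

theorem mem_aou {R : Finset (α × β)} {X : Finset α} {Y : Finset β} {A : Finset α} {B : Finset β}
    {a : α × β} : a ∈ aou R X Y A B ↔ a ∈ R ∧ (a.1 ∈ X ∧ a.1 ∈ A) ∧ a.2 ∈ Y ∧ a.2 ∉ B := by
  simp [aou]

theorem mem_crs {R : Finset (α × β)} {X : Finset α} {Y : Finset β} {A : Finset α} {B : Finset β}
    {a : α × β} : a ∈ crs R X Y A B ↔ a ∈ ain R X Y A B ∨ a ∈ aou R X Y A B := by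
  simp [crs]

theorem disj_ain_aou (R : Finset (α × β)) (X : Finset α) (Y : Finset β) (A : Finset α)
    (B : Finset β) : Disjoint (ain R X Y A B) (aou R X Y A B) := by
  rw [Finset.disjoint_left]
  intro a h h'
  rw [mem_ain] at h
  rw [mem_aou] at h'
  exact h.2.1.2 h'.2.1.2

theorem card_crs (R : Finset (α × β)) (X : Finset α) (Y : Finset β) (A : Finset α)
    (B : Finset β) :
    (crs R X Y A B).card = (ain R X Y A B).card + (aou R X Y A B).card := by
  rw [crs]
  convert Finset.card_union_of_disjoint (disj_ain_aou R X Y A B)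

theorem crs_sub (R : Finset (α × β)) (X : Finset α) (Y : Finset β) (A : Finset α)
    (B : Finset β) {a : α × β} (h : a ∈ crs R X Y A B) : a ∈ R ∧ a.1 ∈ X ∧ a.2 ∈ Y := by
  rw [mem_crs, mem_ain, mem_aou] at h
  tauto

/-- `ain`, `aou`, `dsc`, `crs` depend only on `X ∩ A` and `Y ∩ B`. -/
theorem ain_inter (R : Finset (α × β)) (X : Finset α) (Y : Finset β) (A : Finset α)
    (B : Finset β) : ain R X Y (X ∩ A) (Y ∩ B) = ain R X Y A B := by
  ext a; simp only [mem_ain, Finset.mem_inter]; tauto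

theorem aou_inter (R : Finset (α × β)) (X : Finset α) (Y : Finset β) (A : Finset α)
    (B : Finset β) : aou R X Y (X ∩ A) (Y ∩ B) = aou R X Y A B := by
  ext a; simp only [mem_aou, Finset.mem_inter]; tauto

theorem crs_inter (R : Finset (α × β)) (X : Finset α) (Y : Finset β) (A : Finset α)
    (B : Finset β) : crs R X Y (X ∩ A) (Y ∩ B) = crs R X Y A B := by
  rw [crs, crs, ain_inter, aou_inter]

theorem dsc_inter (R : Finset (α × β)) (X : Finset α) (Y : Finset β) (D : ℝ) (A : Finset α)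
    (B : Finset β) : dsc R X Y D (X ∩ A) (Y ∩ B) = dsc R X Y D A B := by
  have h1 : X ∩ (X ∩ A) = X ∩ A := by ext x; simp
  have h2 : Y ∩ (Y ∩ B) = Y ∩ B := by ext x; simp
  rw [dsc, dsc, ain_inter, aou_inter, h1, h2]

/-! ### Transposition -/

@[simp] theorem tr_tr (R : Finset (α × β)) : tr (tr R) = R := by
  ext a; simp

theorem card_tr (R : Finset (α × β)) : (tr R).card = R.card :=
  Finset.card_image_of_injective _ Prod.swap_injective

theorem tr_sub {R R' : Finset (α × β)} (h : R ⊆ R') : tr R ⊆ tr R' := by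
  intro a ha
  rw [mem_tr] at ha ⊢
  exact h ha

@[simp] theorem out_tr [Fintype α] (R : Finset (α × β)) (y : β) : out (tr R) y = inn R y := by
  ext x; simp

@[simp] theorem inn_tr [Fintype β] (R : Finset (α × β)) (x : α) : inn (tr R) x = out R x := by
  ext y; simp

@[simp] theorem dom_tr (R : Finset (α × β)) : dom (tr R) = ran R := by
  ext y; rw [mem_dom, mem_ran]; simp

@[simp] theorem ran_tr (R : Finset (α × β)) : ran (tr R) = dom R := by
  ext y; rw [mem_dom, mem_ran]; simp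

theorem PI.tr {F : Finset (α × β)} (h : PI F) : PI (tr F) := by
  refine ⟨fun x y y' h1 h2 => ?_, fun x x' y h1 h2 => ?_⟩
  · exact h.2 _ _ _ (by simpa using h1) (by simpa using h2)
  · exact h.1 _ _ _ (by simpa using h1) (by simpa using h2)

theorem ain_tr (R : Finset (α × β)) (X : Finset α) (Y : Finset β) (A : Finset α)
    (B : Finset β) : ain (tr R) Y X B A = tr (aou R X Y A B) := by
  ext a; simp only [mem_tr, mem_ain, mem_aou, Prod.fst_swap, Prod.snd_swap]; tauto

theorem aou_tr (R : Finset (α × β)) (X : Finset α) (Y : Finset β) (A : Finset α)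
    (B : Finset β) : aou (tr R) Y X B A = tr (ain R X Y A B) := by
  ext a; simp only [mem_tr, mem_ain, mem_aou, Prod.fst_swap, Prod.snd_swap]; tauto

theorem crs_tr (R : Finset (α × β)) (X : Finset α) (Y : Finset β) (A : Finset α)
    (B : Finset β) : crs (tr R) Y X B A = tr (crs R X Y A B) := by
  ext a; rw [mem_crs, ain_tr, aou_tr, mem_tr, mem_tr, mem_tr, mem_crs]; tauto

theorem dsc_tr (R : Finset (α × β)) (X : Finset α) (Y : Finset β) (D : ℝ) (A : Finset α)
    (B : Finset β) : dsc (tr R) Y X D B A = -dsc R X Y D A B := by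
  rw [dsc, dsc, ain_tr, aou_tr, card_tr, card_tr]; ring

theorem clO_tr [Fintype α] [Fintype β] (E : Finset (α × β)) (t : ℕ) (Q : Finset α) :
    clO (tr E) t Q = clI E t Q := by
  ext y; simp [clO, clI]

theorem clI_tr [Fintype α] [Fintype β] (E : Finset (α × β)) (t : ℕ) (Q : Finset β) :
    clI (tr E) t Q = clO E t Q := by
  ext y; simp [clO, clI]

@[simp] theorem mem_lp [Fintype α] {Q : Finset (α ⊕ β)} {x : α} : x ∈ lp Q ↔ Sum.inl x ∈ Q := by
  simp [lp]

@[simp] theorem mem_rp [Fintype β] {Q : Finset (α ⊕ β)} {y : β} : y ∈ rp Q ↔ Sum.inr y ∈ Q := by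
  simp [rp]

@[simp] theorem mem_uni_inl {A : Finset α} {B : Finset β} {x : α} :
    Sum.inl x ∈ uni A B ↔ x ∈ A := by simp [uni]

@[simp] theorem mem_uni_inr {A : Finset α} {B : Finset β} {y : β} :
    Sum.inr y ∈ uni A B ↔ y ∈ B := by simp [uni]

theorem card_uni (A : Finset α) (B : Finset β) : (uni A B).card = A.card + B.card := by
  rw [uni, Finset.card_union_of_disjoint, Finset.card_image_of_injective _ Sum.inl_injective,
    Finset.card_image_of_injective _ Sum.inr_injective]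
  rw [Finset.disjoint_left]
  intro z hz hz'
  rw [Finset.mem_image] at hz hz'
  obtain ⟨x, _, rfl⟩ := hz
  obtain ⟨y, _, h⟩ := hz'
  cases h

/-- The sites exchanged. -/
noncomputable def sw (Q : Finset (α ⊕ β)) : Finset (β ⊕ α) := Q.image Sum.swap

theorem mem_sw {Q : Finset (α ⊕ β)} {z : β ⊕ α} : z ∈ sw Q ↔ z.swap ∈ Q := by
  rw [sw, Finset.mem_image]
  constructor
  · rintro ⟨b, hb, rfl⟩
    simpa using hb
  · intro h
    exact ⟨z.swap, h, by simp⟩

@[simp] theorem sw_sw (Q : Finset (α ⊕ β)) : sw (sw Q) = Q := by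
  ext z; simp [mem_sw]

theorem card_sw (Q : Finset (α ⊕ β)) : (sw Q).card = Q.card :=
  Finset.card_image_of_injective _ Sum.swap_leftInverse.injective

@[simp] theorem lp_sw [Fintype β] (Q : Finset (α ⊕ β)) : lp (sw Q) = rp Q := by
  ext y; simp [mem_sw]

@[simp] theorem rp_sw [Fintype α] (Q : Finset (α ⊕ β)) : rp (sw Q) = lp Q := by
  ext y; simp [mem_sw]

theorem clA_tr [Fintype α] [Fintype β] (E : Finset (α × β)) (t : ℕ) (Q : Finset (α ⊕ β)) :
    clA (tr E) t (sw Q) = clB E t Q := by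
  rw [clA, clB, clO_tr, rp_sw]

theorem clB_tr [Fintype α] [Fintype β] (E : Finset (α × β)) (t : ℕ) (Q : Finset (α ⊕ β)) :
    clB (tr E) t (sw Q) = clA E t Q := by
  rw [clA, clB, clI_tr, lp_sw]

theorem cq_tr [Fintype α] [Fintype β] (E R : Finset (α × β)) (X : Finset α) (Y : Finset β)
    (L : ℕ) (Q : Finset (α ⊕ β)) : cq (tr E) (tr R) Y X L (sw Q) = cq E R X Y L Q := by
  rw [cq, cq, clA_tr, clB_tr, crs_tr, card_tr]

theorem HQ.tr [Fintype α] [Fintype β] {E R : Finset (α × β)} {X : Finset α} {Y : Finset β}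
    {L : ℕ} {D η r : ℝ} {Q : Finset (α ⊕ β)} (h : HQ E R X Y L D η r Q) :
    HQ (tr E) (tr R) Y X L D η r (sw Q) := by
  unfold HQ at h ⊢
  rw [clA_tr, clB_tr, dsc_tr, cq_tr, card_sw]
  refine ⟨h.2, ?_⟩
  rw [neg_neg]
  exact h.1

theorem Cl.tr [Fintype α] [Fintype β] {E R : Finset (α × β)} {X : Finset α} {Y : Finset β}
    {D δ : ℝ} (h : Cl E R X Y D δ) : Cl (tr E) (tr R) Y X D δ where
  sub := tr_sub h.sub
  ol := by intro y; rw [out_tr]; exact h.il y
  ou := by intro y; rw [out_tr]; exact h.iu y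
  il := by intro y; rw [inn_tr]; exact h.ol y
  iu := by intro y; rw [inn_tr]; exact h.ou y

theorem Reg.tr [Fintype α] [Fintype β] {E : Finset (α × β)} {k : ℕ} (h : Reg E k) :
    Reg (tr E) k :=
  ⟨fun y => by rw [out_tr]; exact h.2 y, fun x => by rw [inn_tr]; exact h.1 x⟩

/-! ### Sites -/

theorem sadj_symm (E : Finset (α × β)) (u v : α ⊕ β) : sadj E u v → sadj E v u := by
  rcases u with x | y <;> rcases v with x' | y' <;> simp [sadj]

@[simp] theorem sadj_lr {E : Finset (α × β)} {x : α} {y : β} :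
    sadj E (Sum.inl x) (Sum.inr y) ↔ (x, y) ∈ E := Iff.rfl

@[simp] theorem sadj_rl {E : Finset (α × β)} {x : α} {y : β} :
    sadj E (Sum.inr y) (Sum.inl x) ↔ (x, y) ∈ E := Iff.rfl

@[simp] theorem sadj_ll {E : Finset (α × β)} {x x' : α} :
    ¬ sadj E (Sum.inl x) (Sum.inl x') := fun h => h

@[simp] theorem sadj_rr {E : Finset (α × β)} {y y' : β} :
    ¬ sadj E (Sum.inr y) (Sum.inr y') := fun h => h

theorem sadj_tr {E : Finset (α × β)} {u v : β ⊕ α} :
    sadj (tr E) u v ↔ sadj E u.swap v.swap := by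
  rcases u with y | x <;> rcases v with y' | x' <;> simp [sadj]

theorem nr1_refl (r : W → W → Prop) (u : W) : nr1 r u u := Or.inl rfl

theorem nr1_symm {r : W → W → Prop} (hr : ∀ u v, r u v → r v u) {u v : W} (h : nr1 r u v) :
    nr1 r v u := by
  rcases h with rfl | h
  · exact nr1_refl _ _
  · exact Or.inr (hr _ _ h)

theorem nr3_refl (r : W → W → Prop) (u : W) : nr3 r u u :=
  ⟨u, u, nr1_refl _ _, nr1_refl _ _, nr1_refl _ _⟩

theorem nr3_symm {r : W → W → Prop} (hr : ∀ u v, r u v → r v u) {u v : W} (h : nr3 r u v) :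
    nr3 r v u := by
  obtain ⟨a, b, h1, h2, h3⟩ := h
  exact ⟨b, a, nr1_symm hr h3, nr1_symm hr h2, nr1_symm hr h1⟩

theorem nr1.nr3 {r : W → W → Prop} {u v : W} (h : nr1 r u v) : nr3 r u v :=
  ⟨v, v, h, nr1_refl _ _, nr1_refl _ _⟩

theorem nr3_of_two {r : W → W → Prop} {u a v : W} (h : nr1 r u a) (h' : nr1 r a v) :
    nr3 r u v := ⟨a, v, h, h', nr1_refl _ _⟩

theorem nr3_of_adj {r : W → W → Prop} {u v : W} (h : r u v) : nr3 r u v :=
  nr1.nr3 (Or.inr h)

theorem nr3_tr {E : Finset (α × β)} {u v : β ⊕ α} :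
    nr3 (sadj (tr E)) u v ↔ nr3 (sadj E) u.swap v.swap := by
  constructor
  · rintro ⟨a, b, h1, h2, h3⟩
    refine ⟨a.swap, b.swap, ?_, ?_, ?_⟩
    · exact h1.imp (congrArg _) sadj_tr.1
    · exact h2.imp (congrArg _) sadj_tr.1
    · exact h3.imp (congrArg _) sadj_tr.1
  · rintro ⟨a, b, h1, h2, h3⟩
    refine ⟨a.swap, b.swap, ?_, ?_, ?_⟩
    · refine h1.imp (fun h => ?_) (fun h => sadj_tr.2 ?_)
      · rw [← h]; simp
      · simpa using h
    · refine h2.imp (fun h => ?_) (fun h => sadj_tr.2 ?_)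
      · rw [h]
      · simpa using h
    · refine h3.imp (fun h => ?_) (fun h => sadj_tr.2 ?_)
      · rw [h]; simp
      · simpa using h

theorem Con_single (r : W → W → Prop) (w : W) : Con r {w} := by
  refine ⟨⟨w, Finset.mem_singleton_self _⟩, fun u hu v hv => ?_⟩
  rw [Finset.mem_singleton] at hu hv
  rw [hu, hv]

theorem Lnk_single (r : W → W → Prop) (w : W) : Lnk r {w} := Con_single _ _

theorem Lnk_pair {r : W → W → Prop} (hr : ∀ u v, r u v → r v u) {w w' : W} (h : r w w') :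
    Lnk r ({w, w'} : Finset W) := by
  refine ⟨⟨w, by simp⟩, fun u hu v hv => ?_⟩
  rw [Finset.mem_insert, Finset.mem_singleton] at hu hv
  rcases hu with rfl | rfl <;> rcases hv with rfl | rfl
  · exact Relation.ReflTransGen.refl
  · exact Relation.ReflTransGen.single ⟨by simp, nr3_of_adj h⟩
  · exact Relation.ReflTransGen.single ⟨by simp, nr3_of_adj (hr _ _ h)⟩
  · exact Relation.ReflTransGen.refl

theorem Con_sw {E : Finset (α × β)} {Z : Finset (α ⊕ β)} (h : Con (sadj E) Z) :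
    Con (sadj (tr E)) (sw Z) := by
  refine ⟨?_, fun u hu v hv => ?_⟩
  · obtain ⟨z, hz⟩ := h.1
    exact ⟨z.swap, by rw [mem_sw]; simpa using hz⟩
  · rw [mem_sw] at hu hv
    have h1 := h.2 _ hu _ hv
    have h2 : Relation.ReflTransGen (fun a b => b ∈ sw Z ∧ sadj (tr E) a b) u.swap.swap
        v.swap.swap := by
      generalize v.swap = v' at h1
      induction h1 with
      | refl => exact Relation.ReflTransGen.refl
      | tail _ hab ih =>
        exact ih.tail ⟨by rw [mem_sw]; simpa using hab.1, sadj_tr.2 (by simpa using hab.2)⟩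
    simpa using h2

theorem Lnk_sw {E : Finset (α × β)} {Z : Finset (α ⊕ β)} (h : Lnk (sadj E) Z) :
    Lnk (sadj (tr E)) (sw Z) := by
  refine ⟨?_, fun u hu v hv => ?_⟩
  · obtain ⟨z, hz⟩ := h.1
    exact ⟨z.swap, by rw [mem_sw]; simpa using hz⟩
  · rw [mem_sw] at hu hv
    have h1 := h.2 _ hu _ hv
    have h2 : Relation.ReflTransGen (fun a b => b ∈ sw Z ∧ nr3 (sadj (tr E)) a b) u.swap.swap
        v.swap.swap := by
      generalize v.swap = v' at h1
      induction h1 with
      | refl => exact Relation.ReflTransGen.refl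
      | tail _ hab ih =>
        exact ih.tail ⟨by rw [mem_sw]; simpa using hab.1, nr3_tr.2 (by simpa using hab.2)⟩
    simpa using h2

theorem uni_sw (A : Finset α) (B : Finset β) : sw (uni A B) = uni B A := by
  ext z; rw [mem_sw]; rcases z with y | x <;> simp

/-- A tail in the closure has a neighbour in `Q`. -/
theorem clA_near [Fintype α] [Fintype β] {E : Finset (α × β)} {t : ℕ} {Q : Finset (α ⊕ β)}
    (ht : 1 ≤ t) {x : α} (h : x ∈ clA E t Q) : ∃ z ∈ Q, sadj E (Sum.inl x) z := by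
  have h1 : t ≤ (out E x ∩ rp Q).card := by simpa [clA, clO] using h
  obtain ⟨y, hy⟩ := Finset.card_pos.1 (lt_of_lt_of_le ht h1)
  rw [Finset.mem_inter, mem_out, mem_rp] at hy
  exact ⟨Sum.inr y, hy.2, hy.1⟩

/-- A head in the closure has a neighbour in `Q`. -/
theorem clB_near [Fintype α] [Fintype β] {E : Finset (α × β)} {t : ℕ} {Q : Finset (α ⊕ β)}
    (ht : 1 ≤ t) {y : β} (h : y ∈ clB E t Q) : ∃ z ∈ Q, sadj E (Sum.inr y) z := by
  have h1 : t ≤ (inn E y ∩ lp Q).card := by simpa [clB, clI] using h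
  obtain ⟨x, hx⟩ := Finset.card_pos.1 (lt_of_lt_of_le ht h1)
  rw [Finset.mem_inter, mem_inn, mem_lp] at hx
  exact ⟨Sum.inl x, hx.2, hx.1⟩

/-- Both ends of a crossing arc are at distance at most 2 from `Q`. -/
theorem crs_near [Fintype α] [Fintype β] {E R : Finset (α × β)} (hR : R ⊆ E) {X : Finset α}
    {Y : Finset β} {t : ℕ} {Q : Finset (α ⊕ β)} (ht : 1 ≤ t) {a : α × β}
    (h : a ∈ crs R X Y (clA E t Q) (clB E t Q)) :
    (∃ z ∈ Q, nr3 (sadj E) (Sum.inl a.1) z) ∧ ∃ z ∈ Q, nr3 (sadj E) (Sum.inr a.2) z := by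
  rw [mem_crs, mem_ain, mem_aou] at h
  rcases h with h | h
  · obtain ⟨z, hz, hz'⟩ := clB_near ht h.2.2.2
    refine ⟨⟨z, hz, ?_⟩, z, hz, nr3_of_adj hz'⟩
    exact nr3_of_two (a := Sum.inr a.2) (Or.inr (sadj_lr.2 (hR h.1))) (Or.inr hz')
  · obtain ⟨z, hz, hz'⟩ := clA_near ht h.2.1.2
    refine ⟨⟨z, hz, nr3_of_adj hz'⟩, z, hz, ?_⟩
    exact nr3_of_two (a := Sum.inl a.1) (Or.inr (sadj_rl.2 (hR h.1))) (Or.inr hz')

/-- The degree of a site. -/
theorem Reg.deg [Fintype α] [Fintype β] {E : Finset (α × β)} {k : ℕ} (h : Reg E k)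
    (u : α ⊕ β) : (Finset.univ.filter (sadj E u)).card = k := by
  rcases u with x | y
  · rw [← h.1 x, ← Finset.card_image_of_injective (out E x) (Sum.inr_injective (α := α))]
    congr 1
    ext z
    rcases z with x' | y' <;> simp
  · rw [← h.2 y, ← Finset.card_image_of_injective (inn E y) (Sum.inl_injective (β := β))]
    congr 1
    ext z
    rcases z with x' | y' <;> simp

/-! ### Probabilities -/

theorem pr_nonneg [Fintype U] [Fintype S] (A : Set (U → S)) : 0 ≤ pr A := by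
  unfold pr; positivity

theorem pr_mono [Fintype U] [Fintype S] {A B : Set (U → S)} (h : A ⊆ B) : pr A ≤ pr B := by
  unfold pr
  refine div_le_div_of_nonneg_right ?_ (by positivity)
  have h1 : (Finset.univ.filter fun ω => ω ∈ A) ⊆ (Finset.univ.filter fun ω => ω ∈ B) := by
    intro ω hω
    simp only [Finset.mem_filter, Finset.mem_univ, true_and] at hω ⊢
    exact h hω
  exact_mod_cast Finset.card_le_card h1

theorem pr_union [Fintype U] [Fintype S] (A B : Set (U → S)) : pr (A ∪ B) ≤ pr A + pr B := by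
  unfold pr
  rw [← add_div]
  refine div_le_div_of_nonneg_right ?_ (by positivity)
  have h : (Finset.univ.filter fun ω => ω ∈ A ∪ B) ⊆
      (Finset.univ.filter fun ω => ω ∈ A) ∪ (Finset.univ.filter fun ω => ω ∈ B) := by
    intro ω hω
    simp only [Finset.mem_filter, Finset.mem_univ, true_and, Set.mem_union,
      Finset.mem_union] at hω ⊢
    exact hω
  have h2 := (Finset.card_le_card h).trans (Finset.card_union_le _ _)
  have h3 : (Finset.univ.filter fun ω => ω ∈ A ∪ B).card ≤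
      (Finset.univ.filter fun ω => ω ∈ A).card + (Finset.univ.filter fun ω => ω ∈ B).card := by
    refine le_trans (le_of_eq ?_) h2
    congr!
  rw [← Nat.cast_add]
  refine Nat.cast_le.2 (le_trans (le_of_eq ?_) h3)
  congr!

theorem pr_le_one [Fintype U] [Fintype S] (A : Set (U → S)) : pr A ≤ 1 := by
  unfold pr
  refine div_le_one_of_le₀ ?_ (by positivity)
  exact_mod_cast (Finset.card_le_univ _)

/-- A smaller event is again rare and local if it depends on the same coordinates. -/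
theorem Ev.of_le [Fintype U] [Fintype S] {r : W → W → Prop} {L : ℕ} {loc : U → Finset W}
    {A : Set (U → S)} {Z : Finset W} (hZ : Lnk r Z) (B : Finset U)
    (hB : ∀ ω ω' : U → S, (∀ u ∈ B, ω u = ω' u) → ω ∈ A → ω' ∈ A)
    (hn : ∀ u ∈ B, ∃ w ∈ loc u, ∃ z ∈ Z, nr3 r w z) {A' : Set (U → S)} (h : A ⊆ A')
    (hp : pr A' ≤ Real.exp (-((L : ℝ) ^ 2 * Z.card))) : Ev r L loc A Z :=
  Or.inr ⟨hZ, ⟨B, hB, hn⟩, (pr_mono h).trans hp⟩

end Pool.Agent.LAP
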