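import Mathlib
import Pool.Agent.Helper23_LAP.Stmts
import Pool.Agent.Helper23_LAP.Basic

/-!
# LAP: LB4, LB5, the Hall events
-/

set_option autoImplicit false

namespace Pool.Agent.LAP.H23

open scoped Classical

open Pool.Agent.LAP

theorem Prm.Lpos {k L q : ℕ} {D δ η r T Rr ζ : ℝ} {P P' : ℕ}
    (h : Prm k L q D δ η r T Rr ζ P P') : (0 : ℝ) < L := by
  have : 10 ^ 4 ≤ L := h.L4
  exact_mod_cast (by omega : 0 < L)

theorem Prm.Dpos {k L q : ℕ} {D δ η r T Rr ζ : ℝ} {P P' : ℕ}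
    (h : Prm k L q D δ η r T Rr ζ P P') : 0 < D :=
  lt_of_lt_of_le (pow_pos (Prm.Lpos h) 19) h.D1

theorem Prm.Ppos {k L q : ℕ} {D δ η r T Rr ζ : ℝ} {P P' : ℕ}
    (h : Prm k L q D δ η r T Rr ζ P P') : 0 < P := by
  rcases Nat.eq_zero_or_pos P with h0 | h0
  · have h1 := h.P2
    rw [h0] at h1
    have := Prm.Dpos h
    simp at h1
    linarith
  · exact h0

/-- The probability that nothing is sampled. -/
theorem hall_pr (hA : AVDStmt) {k L q : ℕ} {D δ η r T Rr ζ : ℝ} {P P' : ℕ}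
    (h : Prm k L q D δ η r T Rr ζ P P') {U : Type} [Fintype U] (O : Finset U) (s : U → Fin P)
    (n : ℕ) (hn : (L : ℝ) ^ 2 * n * D ≤ (L : ℝ) ^ 5 * O.card) :
    pr {ω : U → Fin P | ∀ u ∈ O, ω u ≠ s u} ≤ Real.exp (-((L : ℝ) ^ 2 * n)) := by
  have hP := Prm.Ppos h
  have : Nonempty (Fin P) := ⟨⟨0, hP⟩⟩
  refine (hA U (Fin P) O s).trans ?_
  rw [Fintype.card_fin, Real.exp_le_exp, neg_le_neg_iff]
  have hP' : (0 : ℝ) < P := by exact_mod_cast hP
  rw [le_div_iff₀ hP']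
  have hL5 : (0 : ℝ) < (L : ℝ) ^ 5 := pow_pos (Prm.Lpos h) 5
  have h1 : (L : ℝ) ^ 2 * n * (P * (L : ℝ) ^ 5) ≤ (L : ℝ) ^ 5 * O.card :=
    (mul_le_mul_of_nonneg_left h.P1 (by positivity)).trans hn
  have h2 : (L : ℝ) ^ 5 * ((L : ℝ) ^ 2 * n * P) ≤ (L : ℝ) ^ 5 * O.card := by linarith
  exact le_of_mul_le_mul_left h2 hL5

theorem lb4 (hA : AVDStmt) : LB4Stmt := by
  intro k L q D δ η r T Rr ζ P P' hp α β _ _ E R F X Y sl hR Q Δ hv
  refine Or.inr ⟨hv.lk, ⟨hO R F (dA E L X Q Δ) Y (dB E L Y Q Δ), ?_, ?_⟩, ?_⟩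
  · intro ω ω' hω h a ha
    rw [← hω a ha]
    exact h a ha
  · intro a ha
    have ha' := ha
    rw [hO, Finset.mem_filter] at ha'
    obtain ⟨z, hz, hz'⟩ := hv.nr a.1 ha'.2.2.1
    refine ⟨Sum.inl a.1, ?_, z, hz, hz'.nr3⟩
    rw [locM, if_pos (hR ha'.1)]
    exact Finset.mem_singleton_self _
  · exact hall_pr hA hp _ sl _ hv.cd

theorem lb5 (hA : AVDStmt) : LB5Stmt := by
  intro k L q D δ η r T Rr ζ P P' hp α β _ _ E R F X Y sl hR Q Δ hv
  set O := hO (tr R) (tr F) (dA (tr E) L Y Q Δ) X (dB (tr E) L X Q Δ) with hOdef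
  have hZ : Q.image Sum.swap ∪ Δ.image Sum.swap = sw (Q ∪ Δ) := by
    ext z
    simp only [sw, Finset.mem_union, Finset.mem_image]
    constructor
    · rintro (⟨a, ha, rfl⟩ | ⟨a, ha, rfl⟩)
      · exact ⟨a, Or.inl ha, rfl⟩
      · exact ⟨a, Or.inr ha, rfl⟩
    · rintro ⟨a, ha | ha, rfl⟩
      · exact Or.inl ⟨a, ha, rfl⟩
      · exact Or.inr ⟨a, ha, rfl⟩
  rw [hZ]
  have hset : {ω : α × β → Fin P | ∀ a ∈ O, ω a.swap ≠ sl a.swap} =
      {ω : α × β → Fin P | ∀ a ∈ tr O, ω a ≠ sl a} := by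
    ext ω
    simp only [Set.mem_ofPred_eq]
    constructor
    · intro h a ha
      rw [mem_tr] at ha
      have := h _ ha
      simpa using this
    · intro h a ha
      refine h _ ?_
      rw [mem_tr]
      simpa using ha
  rw [hset]
  refine Or.inr ⟨?_, ⟨tr O, ?_, ?_⟩, ?_⟩
  · have := Lnk_sw hv.lk
    simpa using this
  · intro ω ω' hω h a ha
    rw [← hω a ha]
    exact h a ha
  · intro a ha
    rw [mem_tr] at ha
    have ha' := ha
    rw [hOdef, hO, Finset.mem_filter] at ha'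
    obtain ⟨h1, -, h2, -, -⟩ := ha'
    obtain ⟨z, hz, hz'⟩ := hv.nr _ h2
    rw [mem_tr] at h1
    have h1' : a ∈ R := by simpa using h1
    refine ⟨Sum.inl a.1, ?_, z.swap, ?_, ?_⟩
    · rw [locM, if_pos (hR h1')]
      exact Finset.mem_singleton_self _
    · rw [mem_sw]
      simpa using hz
    · refine nr3_of_two (a := Sum.inr a.2) (Or.inr (sadj_lr.2 (hR h1'))) ?_
      rcases hz' with hz' | hz'
      · left
        rw [← hz']
        simp
      · right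
        have := sadj_tr.1 hz'
        simpa using this
  · rw [card_sw]
    refine hall_pr hA hp _ sl _ ?_
    rw [card_tr]
    exact hv.cd

end Pool.Agent.LAP.H23
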